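import Pool.Agent.Lib.Pad47bbD.Defs

/-!
The exceptional sets of the big classes of a finitely generated cone of movable classes lie in one
finite set of primes. Consequence: finitely many orbits of contractible sets.
-/

open Set Topology

namespace Pool.Agent.Lib.Pad47bbD

open Pool.Agent.Lib.Pad47bb Pool.Agent.Lib.Pad47bbQ Pool.Agent.Lib.Pad47bbM

variable {V : Type*} [NormedAddCommGroup V] [NormedSpace ℝ V]
  {L : Submodule ℤ V} {P : Set V} {M : PointedCone ℝ V} {Γ : Subgroup (V ≃ₗ[ℝ] V)}

/-- The exceptional sets of the big classes in the cone over a finite set of movable effective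
classes are contained in one finite set of primes. -/
theorem DivData.exists_finite (T : DivData L P M Γ) (s : Finset V)
    (hs : ∀ a ∈ s, a ∈ M ⊓ eff P) :
    ∃ F : Finset V, (F : Set V) ⊆ P ∧ ∀ p ∈ PointedCone.hull ℝ (s : Set V),
      p ∈ interior (eff P : Set V) → Exc P M p ⊆ (F : Set V) := by
  classical
  let q : Finset V → V := fun t => ∑ a ∈ t, a
  let G : Finset V → Finset V := fun t =>
    if h : q t ∈ M ∧ q t ∈ interior (eff P : Set V) then (T.finite_exc h.1 h.2).toFinset else ∅
  have hG : ∀ t, q t ∈ M → q t ∈ interior (eff P : Set V) → (G t : Set V) = Exc P M (q t) := by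
    intro t h1 h2
    simp only [G, dif_pos (And.intro h1 h2), Set.Finite.coe_toFinset]
  have hGP : ∀ t, (G t : Set V) ⊆ P := by
    intro t
    by_cases h : q t ∈ M ∧ q t ∈ interior (eff P : Set V)
    · rw [hG t h.1 h.2]
      exact fun D hD => hD.1
    · simp only [G, dif_neg h, Finset.coe_empty, empty_subset]
  refine ⟨s.powerset.biUnion G, ?_, ?_⟩
  · intro D hD
    rw [Finset.mem_coe, Finset.mem_biUnion] at hD
    obtain ⟨t, _, hDt⟩ := hD
    exact hGP t hDt
  · intro p hp hpE
    obtain ⟨c, hc, hpc⟩ := mem_hull_finset.1 hp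
    let t : Finset V := s.filter fun a => 0 < c a
    have hts : t ⊆ s := Finset.filter_subset _ _
    have hct : ∀ a ∈ t, 0 < c a := fun a ha => (Finset.mem_filter.1 ha).2
    have hpt : p = ∑ a ∈ t, c a • a := by
      rw [hpc]
      symm
      refine Finset.sum_subset hts fun a ha hat => ?_
      have h1 : ¬ 0 < c a := fun h => hat (Finset.mem_filter.2 ⟨ha, h⟩)
      have h2 : c a = 0 := le_antisymm (not_lt.1 h1) (hc a ha)
      rw [h2, zero_smul]
    -- lower and upper bounds of the coefficients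
    obtain ⟨m, hm0, hm⟩ : ∃ m : ℝ, 0 < m ∧ ∀ a ∈ t, m ≤ c a := by
      rcases t.eq_empty_or_nonempty with h | h
      · exact ⟨1, one_pos, by simp [h]⟩
      · obtain ⟨a, ha, hmin⟩ := t.exists_min_image c h
        exact ⟨c a, hct a ha, hmin⟩
    obtain ⟨C, hC0, hC⟩ : ∃ C : ℝ, 0 < C ∧ ∀ a ∈ t, c a ≤ C := by
      refine ⟨1 + ∑ a ∈ t, c a, ?_, fun a ha => ?_⟩
      · have : 0 ≤ ∑ a ∈ t, c a := Finset.sum_nonneg fun a ha => (hct a ha).le
        linarith
      · have := Finset.single_le_sum (f := c) (fun b hb => (hct b hb).le) ha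
        linarith
    have hqM : q t ∈ M := M.sum_mem fun a ha => (hs a (hts ha)).1
    have hqE : q t ∈ interior (eff P : Set V) := by
      have h1 : q t = C⁻¹ • (p + ∑ a ∈ t, (C - c a) • a) := by
        rw [hpt, ← Finset.sum_add_distrib]
        have : ∀ a ∈ t, c a • a + (C - c a) • a = C • a := fun a _ => by
          rw [← add_smul]; congr 1; ring
        rw [Finset.sum_congr rfl this, ← Finset.smul_sum, smul_smul, inv_mul_cancel₀ hC0.ne',
          one_smul]
      rw [h1]
      refine interior_smul_mem (interior_add_mem hpE ?_) (inv_pos.2 hC0)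
      exact Submodule.sum_mem _ fun a ha =>
        PointedCone.smul_mem _ (by linarith [hC a ha]) (hs a (hts ha)).2
    have hsub : Exc P M p ⊆ Exc P M (q t) := by
      have h1 : p = m • q t + ∑ a ∈ t, (c a - m) • a := by
        rw [hpt, Finset.smul_sum, ← Finset.sum_add_distrib]
        refine Finset.sum_congr rfl fun a _ => ?_
        rw [← add_smul]; congr 1; ring
      rw [h1]
      refine exc_add ?_ hm0
      exact M.sum_mem fun a ha => PointedCone.smul_mem _ (by linarith [hm a ha]) (hs a (hts ha)).1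
    intro D hD
    rw [Finset.mem_coe, Finset.mem_biUnion]
    refine ⟨t, Finset.mem_powerset.2 hts, ?_⟩
    have h1 := hsub hD
    rw [← hG t hqM hqE] at h1
    exact h1

variable [FiniteDimensional ℝ V]

/-- The same for the translates of the cone. -/
theorem DivData.exists_finite_translate (T : DivData L P M Γ) (s : Finset V)
    (hs : ∀ a ∈ s, a ∈ M ⊓ eff P) :
    ∃ F : Finset V, (F : Set V) ⊆ P ∧ ∀ g ∈ Γ, ∀ y ∈ PointedCone.hull ℝ (s : Set V),
      g y ∈ interior (eff P : Set V) → ∀ D ∈ Exc P M (g y), g⁻¹ D ∈ F := by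
  obtain ⟨F, hFP, hF⟩ := T.exists_finite s hs
  refine ⟨F, hFP, fun g hg y hy hgy D hD => ?_⟩
  have h1 : y ∈ interior (eff P : Set V) := by
    have h2 := interior_map_mem (fun x hx => T.map_eff (inv_mem hg) hx) hgy
    have h3 : g⁻¹ (g y) = y := g.symm_apply_apply y
    rwa [h3] at h2
  exact hF y hy h1 (T.exc_map hg hD)

/-- If the movable cone conjecture holds, then there are finitely many primes such that every
contractible set is a translate of a set of these primes. -/
theorem DivData.finite_orbits (T : DivData L P M Γ) (h : HasRPFD L Γ (M ⊓ eff P)) :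
    ∃ F : Finset V, (F : Set V) ⊆ P ∧ ∀ S : Set V, Contractible P M S →
      ∃ g ∈ Γ, ∀ D ∈ S, g D ∈ F := by
  obtain ⟨Q, ⟨s, hsL, rfl⟩, hcov, -⟩ := h
  have hsK : ∀ a ∈ s, a ∈ M ⊓ eff P := by
    intro a ha
    have h1 : a ∈ ((M ⊓ eff P : PointedCone ℝ V) : Set V) := by
      rw [hcov]
      exact mem_biUnion (one_mem Γ) ⟨a, Submodule.subset_span ha, rfl⟩
    exact h1
  obtain ⟨F, hFP, hF⟩ := T.exists_finite_translate s hsK
  refine ⟨F, hFP, ?_⟩
  rintro S ⟨p, hp, hpE, hS⟩
  have h1 : p ∈ ((M ⊓ eff P : PointedCone ℝ V) : Set V) := ⟨hp, interior_subset hpE⟩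
  rw [hcov] at h1
  simp only [mem_iUnion] at h1
  obtain ⟨g, hg, y, hy, rfl⟩ := h1
  exact ⟨g⁻¹, inv_mem hg, fun D hD => hF g hg y hy hpE D (hS hD)⟩

end Pool.Agent.Lib.Pad47bbD
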