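import Pool.Agent.Lib.Pad47bbM.Cover

/-!
Divisors on a projective variety: the classes of the prime divisors generate the effective cone, and
the closed movable cone is closed under joins. No other fact of geometry is used.

Dictionary. `X` is a `ℚ`-factorial projective variety, `V = N¹(X)_ℝ`, `L` the lattice generated by
the classes of the Weil divisors, `P` the set of the classes of the prime divisors, `eff P = Eff(X)`,
`M` the closed movable cone, `Γ` the image of `PsAut(X)`. `join`: if `A ∼ x + aD` and `B ∼ x + Z` are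
movable, where `D` is a prime divisor and `Z` an effective divisor without the component `D`, then
`A + Z` and `B + aD` are members of the class `x + aD + Z`; the first kind has no fixed component
outside `Z` and the second no fixed component other than `D`.
-/

open Set Topology

namespace Pool.Agent.Lib.Pad47bbD

open Pool.Agent.Lib.Pad47bb Pool.Agent.Lib.Pad47bbQ Pool.Agent.Lib.Pad47bbM

variable {V : Type*} [NormedAddCommGroup V] [NormedSpace ℝ V]

/-- The cone generated by the classes of the primes: the effective cone. -/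
abbrev eff (P : Set V) : PointedCone ℝ V := PointedCone.hull ℝ P

/-- Divisor data. -/
structure DivData (L : Submodule ℤ V) (P : Set V) (M : PointedCone ℝ V)
    (Γ : Subgroup (V ≃ₗ[ℝ] V)) : Prop where
  prime_lattice : P ⊆ (L : Set V)
  closed : IsClosed (M : Set V)
  interior_nonempty : (interior (M : Set V)).Nonempty
  mov_subset : (M : Set V) ⊆ closure (eff P : Set V)
  salient : ∀ x ∈ closure (eff P : Set V), -x ∈ closure (eff P : Set V) → x = 0
  join : ∀ (x : V) (D : V) (a : ℝ) (z : V), D ∈ P → 0 ≤ a →
    z ∈ PointedCone.hull ℝ (P \ {D}) → x + a • D ∈ M → x + z ∈ M → x + a • D + z ∈ M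
  map_lattice : ∀ g ∈ Γ, ∀ x ∈ L, g x ∈ L
  map_prime : ∀ g ∈ Γ, ∀ D ∈ P, g D ∈ P
  map_mov : ∀ g ∈ Γ, ∀ x ∈ M, g x ∈ M

/-- The primes which are exceptional for `p`: no class `p + εD`, `ε > 0`, is movable. -/
def Exc (P : Set V) (M : PointedCone ℝ V) (p : V) : Set V :=
  {D | D ∈ P ∧ ∀ ε : ℝ, 0 < ε → p + ε • D ∉ M}

/-- A set of primes is contractible if it consists of exceptional primes of one big movable class. -/
def Contractible (P : Set V) (M : PointedCone ℝ V) (S : Set V) : Prop :=
  ∃ p ∈ M, p ∈ interior (eff P : Set V) ∧ S ⊆ Exc P M p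

theorem mem_exc {P : Set V} {M : PointedCone ℝ V} {p D : V} :
    D ∈ Exc P M p ↔ D ∈ P ∧ ∀ ε : ℝ, 0 < ε → p + ε • D ∉ M := Iff.rfl

variable {L : Submodule ℤ V} {P : Set V} {M : PointedCone ℝ V} {Γ : Subgroup (V ≃ₗ[ℝ] V)}

theorem DivData.map_eff (T : DivData L P M Γ) {g : V ≃ₗ[ℝ] V} (hg : g ∈ Γ) {x : V}
    (hx : x ∈ eff P) : g x ∈ eff P := by
  induction hx using Submodule.span_induction with
  | mem x hx => exact Submodule.subset_span (T.map_prime g hg x hx)
  | zero => rw [map_zero]; exact Submodule.zero_mem _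
  | add x y _ _ hx hy => rw [map_add]; exact Submodule.add_mem _ hx hy
  | smul c x _ hx =>
    have h1 : g (c • x) = c • g x := map_smul g c.1 x
    rw [h1]
    exact Submodule.smul_mem _ c hx

/-- Divisor data give the data of the cone conjecture for the movable cone. -/
theorem DivData.data (T : DivData L P M Γ) : Data L M (eff P) Γ where
  closed := T.closed
  le := T.mov_subset
  salient := T.salient
  int_nonempty := T.interior_nonempty
  gen := by
    apply le_antisymm
    · refine Submodule.span_le.2 fun D hD => ?_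
      exact Submodule.subset_span ⟨Submodule.subset_span hD, T.prime_lattice hD⟩
    · exact Submodule.span_le.2 fun x hx => hx.1
  map_lattice := T.map_lattice
  map_N := T.map_mov
  map_E := fun _ hg _ hx => T.map_eff hg hx

/-- `0` is not exceptional. -/
theorem ne_zero_of_exc {p D : V} (hp : p ∈ M) (hD : D ∈ Exc P M p) : D ≠ 0 := by
  rintro rfl
  exact hD.2 1 one_pos (by simpa using hp)

/-- Exceptional primes move with the group. -/
theorem DivData.exc_map (T : DivData L P M Γ) {g : V ≃ₗ[ℝ] V} (hg : g ∈ Γ) {p D : V}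
    (hD : D ∈ Exc P M (g p)) : g⁻¹ D ∈ Exc P M p := by
  refine ⟨T.map_prime _ (inv_mem hg) D hD.1, fun ε hε h => hD.2 ε hε ?_⟩
  have h1 := T.map_mov g hg _ h
  have h2 : g (p + ε • g⁻¹ D) = g p + ε • D := by
    rw [map_add, map_smul]
    congr 2
    exact g.apply_symm_apply D
  rwa [h2] at h1

/-- If `p = A + R` with `A` in the interior of `M` and `R` effective without the component `D`, then
`D` is not exceptional for `p`. -/
theorem DivData.not_exc (T : DivData L P M Γ) {p A R D : V} (hp : p ∈ M)
    (hA : A ∈ interior (M : Set V)) (hD : D ∈ P) (hR : R ∈ PointedCone.hull ℝ (P \ {D}))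
    (hpAR : p = A + R) : D ∉ Exc P M p := by
  intro hDe
  obtain ⟨δ, hδ, hball⟩ := Metric.isOpen_iff.1 isOpen_interior A hA
  set ε : ℝ := δ / (2 * (1 + ‖D‖)) with hε
  have hε0 : 0 < ε := by positivity
  have hεD : ‖ε • D‖ < δ := by
    rw [norm_smul, Real.norm_of_nonneg hε0.le, hε, div_mul_eq_mul_div, div_lt_iff₀ (by positivity)]
    nlinarith [norm_nonneg D]
  have h1 : A + ε • D ∈ M := interior_subset (hball (by
    simpa [Metric.mem_ball, dist_eq_norm] using hεD))
  have h2 := T.join A D ε R hD hε0.le hR h1 (hpAR ▸ hp)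
  apply hDe.2 ε hε0
  have h3 : p + ε • D = A + ε • D + R := by rw [hpAR]; abel
  rwa [h3]

/-- A big class is the sum of a class in the interior of `M` and an effective class. -/
theorem DivData.exists_add (T : DivData L P M Γ) {p : V} (hp : p ∈ interior (eff P : Set V)) :
    ∃ A ∈ interior (M : Set V), ∃ T₀ : Finset V, (T₀ : Set V) ⊆ P ∧
      p - A ∈ PointedCone.hull ℝ (T₀ : Set V) := by
  obtain ⟨e, he⟩ := T.interior_nonempty
  obtain ⟨δ, hδ, hball⟩ := Metric.isOpen_iff.1 isOpen_interior p hp
  set ε : ℝ := δ / (2 * (1 + ‖e‖)) with hε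
  have hε0 : 0 < ε := by positivity
  have hεe : ‖ε • e‖ < δ := by
    rw [norm_smul, Real.norm_of_nonneg hε0.le, hε, div_mul_eq_mul_div, div_lt_iff₀ (by positivity)]
    nlinarith [norm_nonneg e]
  have h1 : p - ε • e ∈ eff P := interior_subset (hball (by
    simpa [Metric.mem_ball, dist_eq_norm, norm_sub_rev] using hεe))
  obtain ⟨u, hu, hxu⟩ := Submodule.mem_span_finite_of_mem_span h1
  exact ⟨ε • e, interior_smul_mem he hε0, u, hu, hxu⟩

/-- The set of the exceptional primes of a big movable class is finite. -/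
theorem DivData.finite_exc (T : DivData L P M Γ) {p : V} (hp : p ∈ M)
    (hpE : p ∈ interior (eff P : Set V)) : (Exc P M p).Finite := by
  obtain ⟨A, hA, T₀, hT₀, hR⟩ := T.exists_add hpE
  refine T₀.finite_toSet.subset fun D hD => ?_
  by_contra hDT
  have h1 : (T₀ : Set V) ⊆ P \ {D} := by
    intro x hx
    refine ⟨hT₀ hx, ?_⟩
    rintro rfl
    exact hDT hx
  exact T.not_exc hp hA hD.1 (Submodule.span_mono h1 hR) (by abel) hD

/-- Adding a movable class shrinks the exceptional set. -/
theorem exc_add {p q : V} (hq : q ∈ M) {c : ℝ} (hc : 0 < c) : 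
    Exc P M (c • p + q) ⊆ Exc P M p := by
  intro D hD
  refine ⟨hD.1, fun ε hε h => hD.2 (c * ε) (by positivity) ?_⟩
  have h1 : c • p + q + (c * ε) • D = c • (p + ε • D) + q := by
    rw [smul_add, smul_smul]; abel
  rw [h1]
  exact M.add_mem (PointedCone.smul_mem M hc.le h) hq

end Pool.Agent.Lib.Pad47bbD
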