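import Pool.Agent.Lib.Pad47bbD.Lift

/-!
Birational descent of the movable cone conjecture: the quotient by a contractible set of primes.
-/

open Set Topology

namespace Pool.Agent.Lib.Pad47bbD

open Pool.Agent.Lib.Pad47bb Pool.Agent.Lib.Pad47bbQ Pool.Agent.Lib.Pad47bbM

variable {V : Type*} [NormedAddCommGroup V] [NormedSpace ℝ V]
  {U : Type*} [NormedAddCommGroup U] [NormedSpace ℝ U]

/-- The push-forward `π : N¹(Y) → N¹(X)` of a birational contraction `Y ⇢ X` with the exceptional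
primes `S`: `π` is surjective with kernel `span S` and maps `L` into `L'`; `Γ'` is any group of
automorphisms of `L'` and of the cone `π(K)` which contains the maps induced by the elements of `Γ`
that preserve `S`. -/
structure IsPush (L : Submodule ℤ V) (K : PointedCone ℝ V) (Γ : Subgroup (V ≃ₗ[ℝ] V))
    (S : Finset V) (π : V →ₗ[ℝ] U) (L' : Submodule ℤ U) (Γ' : Subgroup (U ≃ₗ[ℝ] U)) : Prop where
  surj : Function.Surjective π
  ker : ∀ x, π x = 0 ↔ x ∈ Submodule.span ℝ (S : Set V)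
  lattice : ∀ x ∈ L, π x ∈ L'
  map_lattice : ∀ h ∈ Γ', ∀ u ∈ L', h u ∈ L'
  map_cone : ∀ h ∈ Γ', ∀ u ∈ PointedCone.map π K, h u ∈ PointedCone.map π K
  induced : ∀ g ∈ Γ, (∀ D ∈ S, g D ∈ S) → ∃ h ∈ Γ', ∀ x, h (π x) = π (g x)

/-- The image of a closed cone which meets the kernel only in `0` is closed. -/
theorem isClosed_image [FiniteDimensional ℝ V] [FiniteDimensional ℝ U] {M : PointedCone ℝ V}
    (hM : IsClosed (M : Set V)) (π : V →ₗ[ℝ] U) (hker : ∀ x ∈ M, π x = 0 → x = 0) :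
    IsClosed (π '' (M : Set V)) := by
  have hπc : Continuous π := LinearMap.continuous_of_finiteDimensional π
  obtain ⟨c, hc, hcb⟩ : ∃ c : ℝ, 0 < c ∧ ∀ x ∈ M, c * ‖x‖ ≤ ‖π x‖ := by
    have hBc : IsCompact ((M : Set V) ∩ Metric.sphere 0 1) :=
      (isCompact_sphere 0 1).inter_left hM
    have hnorm : ∀ x ∈ M, x ≠ 0 → ‖x‖⁻¹ • x ∈ (M : Set V) ∩ Metric.sphere 0 1 := by
      intro x hx hx0
      refine ⟨PointedCone.smul_mem M (inv_nonneg.2 (norm_nonneg x)) hx, ?_⟩
      rw [mem_sphere_zero_iff_norm, norm_smul, norm_inv, norm_norm,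
        inv_mul_cancel₀ (norm_ne_zero_iff.2 hx0)]
    rcases ((M : Set V) ∩ Metric.sphere 0 1).eq_empty_or_nonempty with h | h
    · refine ⟨1, one_pos, fun x hx => ?_⟩
      by_cases hx0 : x = 0
      · rw [hx0, norm_zero, mul_zero]; exact norm_nonneg _
      · have h1 := hnorm x hx hx0
        rw [h] at h1
        exact absurd h1 (notMem_empty _)
    · obtain ⟨x₀, hx₀, hmin⟩ := hBc.exists_isMinOn h (f := fun x => ‖π x‖)
        (Continuous.continuousOn (by fun_prop))
      have hx₀0 : x₀ ≠ 0 := by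
        rintro rfl
        have := hx₀.2
        simp at this
      refine ⟨‖π x₀‖, norm_pos_iff.2 fun h0 => hx₀0 (hker x₀ hx₀.1 h0), fun x hx => ?_⟩
      by_cases hx0 : x = 0
      · rw [hx0, norm_zero, mul_zero]; exact norm_nonneg _
      · have h1 : ‖π x₀‖ ≤ ‖π (‖x‖⁻¹ • x)‖ := hmin (hnorm x hx hx0)
        have hx' : 0 < ‖x‖ := norm_pos_iff.2 hx0
        rw [map_smul, norm_smul, norm_inv, norm_norm, le_inv_mul_iff₀ hx'] at h1
        linarith
  apply isClosed_of_closure_subset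
  intro u hu
  obtain ⟨y, hy, hlim⟩ := mem_closure_iff_seq_limit.1 hu
  choose m hm hmy using hy
  have hev : ∀ᶠ n in Filter.atTop, ‖y n‖ < ‖u‖ + 1 :=
    hlim.norm.eventually_lt_const (lt_add_one _)
  set r : ℝ := (‖u‖ + 1) / c with hr
  have hcomp : IsCompact (π '' ((M : Set V) ∩ Metric.closedBall 0 r)) :=
    ((isCompact_closedBall 0 r).inter_left hM).image hπc
  have hmem : u ∈ π '' ((M : Set V) ∩ Metric.closedBall 0 r) := by
    refine hcomp.isClosed.mem_of_tendsto hlim ?_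
    filter_upwards [hev] with n hn
    refine ⟨m n, ⟨hm n, ?_⟩, hmy n⟩
    rw [mem_closedBall_zero_iff, hr, le_div_iff₀ hc, mul_comm]
    have := hcb (m n) (hm n)
    rw [hmy n] at this
    linarith
  exact image_mono inter_subset_left hmem

variable {L : Submodule ℤ V} {P : Set V} {M : PointedCone ℝ V} {Γ : Subgroup (V ≃ₗ[ℝ] V)}
  [FiniteDimensional ℝ V] [FiniteDimensional ℝ U]
  {S : Finset V} {π : V →ₗ[ℝ] U} {L' : Submodule ℤ U} {Γ' : Subgroup (U ≃ₗ[ℝ] U)}

/-- The setting on the quotient. -/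
theorem DivData.setting_map (T : DivData L P M Γ) (hS : Contractible P M (S : Set V))
    (Q : IsPush L (M ⊓ eff P) Γ S π L' Γ') :
    Setting L' (PointedCone.map π (M ⊓ eff P)) Γ' where
  salient := by
    have hker : ∀ x ∈ M, π x = 0 → x = 0 := fun x hx h0 => T.span_inf hS hx ((Q.ker x).1 h0)
    have hcl : closure ((PointedCone.map π (M ⊓ eff P) : PointedCone ℝ U) : Set U) ⊆
        π '' (M : Set V) := by
      refine closure_minimal ?_ (isClosed_image T.closed π hker)
      rintro _ ⟨x, hx, rfl⟩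
      exact ⟨x, hx.1, rfl⟩
    intro u hu hu'
    obtain ⟨m, hm, rfl⟩ := hcl hu
    obtain ⟨m', hm', hmm⟩ := hcl hu'
    have h1 : m + m' = 0 := hker _ (M.add_mem hm hm') (by rw [map_add, hmm, add_neg_cancel])
    have h2 : -m = m' := neg_eq_of_add_eq_zero_right h1
    have h3 : m = 0 := T.salient m (T.mov_subset hm) (by rw [h2]; exact T.mov_subset hm')
    rw [h3, map_zero]
  interior_nonempty := by
    obtain ⟨e, he⟩ := T.data.settingNE.interior_nonempty
    refine ⟨π e, ?_⟩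
    rw [mem_interior]
    refine ⟨π '' interior ((M ⊓ eff P : PointedCone ℝ V) : Set V), ?_,
      (LinearMap.isOpenMap_of_finiteDimensional π Q.surj) _ isOpen_interior, ⟨e, he, rfl⟩⟩
    rintro _ ⟨x, hx, rfl⟩
    exact ⟨x, interior_subset hx, rfl⟩
  map_lattice := Q.map_lattice
  map_cone := Q.map_cone

variable [DiscreteTopology L'] [IsZLattice ℝ L']

/-- **Birational descent.** A rational polyhedral fundamental domain on the effective movable cone
descends to the quotient by a contractible set of primes. -/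
theorem DivData.descent (T : DivData L P M Γ) (h : HasRPFD L Γ (M ⊓ eff P))
    (hS : Contractible P M (S : Set V)) (Q : IsPush L (M ⊓ eff P) Γ S π L' Γ') :
    HasRPFD L' Γ' (PointedCone.map π (M ⊓ eff P)) := by
  classical
  obtain ⟨R, ⟨s, hsL, rfl⟩, hcov, -⟩ := h
  have hRK : ∀ g ∈ Γ, ∀ y ∈ PointedCone.hull ℝ (s : Set V), g y ∈ M ⊓ eff P := by
    intro g hg y hy
    show g y ∈ ((M ⊓ eff P : PointedCone ℝ V) : Set V)
    rw [hcov]
    exact mem_biUnion hg ⟨y, hy, rfl⟩
  have hsK : ∀ a ∈ s, a ∈ M ⊓ eff P := fun a ha =>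
    hRK 1 (one_mem Γ) a (Submodule.subset_span ha)
  have hcov' : ∀ x ∈ M ⊓ eff P, ∃ g ∈ Γ, ∃ y ∈ PointedCone.hull ℝ (s : Set V), g y = x := by
    intro x hx
    have h1 : x ∈ ((M ⊓ eff P : PointedCone ℝ V) : Set V) := hx
    rw [hcov] at h1
    simp only [mem_iUnion] at h1
    obtain ⟨g, hg, y, hy, rfl⟩ := h1
    exact ⟨g, hg, y, hy, rfl⟩
  obtain ⟨F, hFP, hF⟩ := T.exists_finite_translate s hsK
  have hSet := T.setting_map hS Q
  -- representatives
  have hrep : ∀ S' : Finset V, ∃ γ ∈ Γ, (∃ g ∈ Γ, S.image (fun D => (g⁻¹ : V ≃ₗ[ℝ] V) D) = S') → S.image (fun D => (γ⁻¹ : V ≃ₗ[ℝ] V) D) = S' := by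
    intro S'
    by_cases h : ∃ g ∈ Γ, S.image (fun D => (g⁻¹ : V ≃ₗ[ℝ] V) D) = S'
    · obtain ⟨g, hg, hgS⟩ := h
      exact ⟨g, hg, fun _ => hgS⟩
    · exact ⟨1, one_mem Γ, fun h' => absurd h' h⟩
  choose γ hγΓ hγ using hrep
  let t : Finset U := F.powerset.biUnion fun S' => s.image fun a => π (γ S' a)
  have htL : (t : Set U) ⊆ L' := by
    intro u hu
    rw [Finset.mem_coe, Finset.mem_biUnion] at hu
    obtain ⟨S', _, hu⟩ := hu
    obtain ⟨a, ha, rfl⟩ := Finset.mem_image.1 hu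
    exact Q.lattice _ (T.map_lattice _ (hγΓ S') a (hsL ha))
  have htK : (t : Set U) ⊆ (PointedCone.map π (M ⊓ eff P) : PointedCone ℝ U) := by
    intro u hu
    rw [Finset.mem_coe, Finset.mem_biUnion] at hu
    obtain ⟨S', _, hu⟩ := hu
    obtain ⟨a, ha, rfl⟩ := Finset.mem_image.1 hu
    exact ⟨_, hRK _ (hγΓ S') a (Submodule.subset_span ha), rfl⟩
  -- images of cones over finite sets
  have hmap : ∀ (g : V ≃ₗ[ℝ] V) (u : Finset U), (∀ a ∈ s, π (g a) ∈ u) →
      ∀ y ∈ PointedCone.hull ℝ (s : Set V), π (g y) ∈ PointedCone.hull ℝ (u : Set U) := by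
    intro g u hu y hy
    obtain ⟨c, hc, rfl⟩ := mem_hull_finset.1 hy
    rw [map_sum, map_sum]
    refine Submodule.sum_mem _ fun a ha => ?_
    rw [map_smul, map_smul]
    exact PointedCone.smul_mem _ (hc a ha) (Submodule.subset_span (hu a ha))
  -- the cover of the interior
  have hint : ∀ u ∈ interior ((PointedCone.map π (M ⊓ eff P) : PointedCone ℝ U) : Set U),
      ∃ h ∈ Γ', ∃ y ∈ PointedCone.hull ℝ (t : Set U), h y = u := by
    intro u hu
    obtain ⟨e, he⟩ := T.interior_nonempty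
    -- a big movable class over `u`
    obtain ⟨q, hqM, hqE, hqu⟩ : ∃ q ∈ M, q ∈ interior (eff P : Set V) ∧ π q = u := by
      obtain ⟨δ, hδ, hball⟩ := Metric.isOpen_iff.1 isOpen_interior u hu
      set ε : ℝ := δ / (2 * (1 + ‖π e‖)) with hε
      have hε0 : 0 < ε := by positivity
      have hεe : ‖ε • π e‖ < δ := by
        rw [norm_smul, Real.norm_of_nonneg hε0.le, hε, div_mul_eq_mul_div,
          div_lt_iff₀ (by positivity)]
        nlinarith [norm_nonneg (π e)]
      have h1 : u - ε • π e ∈ PointedCone.map π (M ⊓ eff P) := interior_subset (hball (by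
        simpa [Metric.mem_ball, dist_eq_norm, norm_sub_rev] using hεe))
      obtain ⟨k, hk, hku⟩ := h1
      have hku' : π k = u - ε • π e := hku
      refine ⟨ε • e + k, ?_, ?_, ?_⟩
      · exact M.add_mem (PointedCone.smul_mem M hε0.le (interior_subset he)) hk.1
      · exact interior_add_mem (interior_smul_mem (T.data.intN_subset he) hε0) hk.2
      · rw [map_add, map_smul, hku']; abel
    obtain ⟨p, hpM, hpq, hSp⟩ := T.exists_lift hS hqM
    have hSP : ∀ D ∈ S, D ∈ P := fun D hD => (hSp hD).1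
    have hpqE : p - q ∈ eff P := Submodule.span_mono (fun D hD => hSP D hD) hpq
    have hpE : p ∈ interior (eff P : Set V) := by
      have h1 := interior_add_mem hqE hpqE
      rwa [add_sub_cancel] at h1
    have hpu : π p = u := by
      have h1 : p - q ∈ Submodule.span ℝ (S : Set V) := by
        obtain ⟨c, _, hc⟩ := mem_hull_finset.1 hpq
        rw [hc]
        exact Submodule.sum_mem _ fun D hD => Submodule.smul_mem _ _ (Submodule.subset_span hD)
      have h2 := (Q.ker _).2 h1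
      rw [map_sub, sub_eq_zero] at h2
      rw [h2, hqu]
    obtain ⟨g, hg, y, hy, hgy⟩ := hcov' p ⟨hpM, interior_subset hpE⟩
    -- the set `g⁻¹ S`
    have hgS : S.image (fun D => (g⁻¹ : V ≃ₗ[ℝ] V) D) ⊆ F := by
      intro D' hD'
      obtain ⟨D, hD, rfl⟩ := Finset.mem_image.1 hD'
      exact hF g hg y hy (by rw [hgy]; exact hpE) D (by rw [hgy]; exact hSp hD)
    set S' : Finset V := S.image (fun D => (g⁻¹ : V ≃ₗ[ℝ] V) D) with hS'
    have hγS : S.image (fun D => ((γ S')⁻¹ : V ≃ₗ[ℝ] V) D) = S' := hγ S' ⟨g, hg, rfl⟩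
    have hh0 : ∀ D ∈ S, (g * (γ S')⁻¹) D ∈ S := by
      intro D hD
      have h0 : (γ S')⁻¹ D ∈ S.image (fun D => ((γ S')⁻¹ : V ≃ₗ[ℝ] V) D) :=
        Finset.mem_image_of_mem (fun D => ((γ S')⁻¹ : V ≃ₗ[ℝ] V) D) hD
      have h1 : (γ S')⁻¹ D ∈ S' := by rwa [hγS] at h0
      obtain ⟨D', hD', hDD⟩ := Finset.mem_image.1 h1
      have h2 : (g * (γ S')⁻¹) D = D' := by
        show g ((γ S')⁻¹ D) = D'
        rw [← hDD]
        exact g.apply_symm_apply D'
      rw [h2]
      exact hD'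
    obtain ⟨h, hh, hhx⟩ := Q.induced (g * (γ S')⁻¹) (mul_mem hg (inv_mem (hγΓ S'))) hh0
    refine ⟨h, hh, π (γ S' y), ?_, ?_⟩
    · refine hmap (γ S') t (fun a ha => ?_) y hy
      rw [Finset.mem_biUnion]
      exact ⟨S', Finset.mem_powerset.2 hgS, Finset.mem_image_of_mem (fun a => π (γ S' a)) ha⟩
    · rw [hhx]
      have h1 : (g * (γ S')⁻¹) (γ S' y) = p := by
        show g ((γ S')⁻¹ (γ S' y)) = p
        have h2 : (γ S')⁻¹ (γ S' y) = y := (γ S').symm_apply_apply y
        rw [h2, hgy]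
      rw [h1, hpu]
  -- generation by lattice points
  have hgen : ∀ u ∈ PointedCone.map π (M ⊓ eff P), ∃ w : Finset U, (w : Set U) ⊆ L' ∧
      (w : Set U) ⊆ (PointedCone.map π (M ⊓ eff P) : PointedCone ℝ U) ∧
      u ∈ PointedCone.hull ℝ (w : Set U) := by
    rintro u ⟨x, hx, rfl⟩
    obtain ⟨g, hg, y, hy, rfl⟩ := hcov' x hx
    refine ⟨s.image fun a => π (g a), ?_, ?_, ?_⟩
    · intro u hu
      obtain ⟨a, ha, rfl⟩ := Finset.mem_image.1 hu
      exact Q.lattice _ (T.map_lattice g hg a (hsL ha))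
    · intro u hu
      obtain ⟨a, ha, rfl⟩ := Finset.mem_image.1 hu
      exact ⟨_, hRK g hg a (Submodule.subset_span ha), rfl⟩
    · exact hmap g _ (fun a ha => Finset.mem_image_of_mem (fun a => π (g a)) ha) y hy
  have hcl := closing hSet t htL htK hgen hint
  refine exists_fundDomain hSet (P₁ := PointedCone.hull ℝ (t : Set U)) ⟨t, htL, rfl⟩ ?_
  apply Subset.antisymm
  · intro u hu
    obtain ⟨g, hg, y, hy, rfl⟩ := hcl u hu
    exact mem_biUnion hg ⟨y, hy, rfl⟩
  · intro u hu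
    simp only [mem_iUnion] at hu
    obtain ⟨g, hg, y, hy, rfl⟩ := hu
    exact Q.map_cone g hg y ((Submodule.span_le.2 fun a ha => htK ha) hy)

end Pool.Agent.Lib.Pad47bbD
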