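import Pool.Agent.Lib.Pad47bbD.Defs

/-!
The cone conjecture for the movable cone and for the effective cone, and non-vanishing.
-/

open Set Topology

namespace Pool.Agent.Lib.Pad47bbD

open Pool.Agent.Lib.Pad47bb Pool.Agent.Lib.Pad47bbQ Pool.Agent.Lib.Pad47bbM

variable {V : Type*} [NormedAddCommGroup V] [NormedSpace ℝ V] [FiniteDimensional ℝ V]

/-- The intersection of two rational polyhedral cones is rational polyhedral. -/
theorem isRatPoly_inf {L : Submodule ℤ V} [DiscreteTopology L] [IsZLattice ℝ L]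
    {A B : PointedCone ℝ V} (hA : IsRatPoly L A) (hB : IsRatPoly L B) : IsRatPoly L (A ⊓ B) := by
  classical
  obtain ⟨s, hs, rfl⟩ := hA
  obtain ⟨t, ht, rfl⟩ := hB
  let b₀ := Module.Free.chooseBasis ℤ L
  let b := b₀.ofZLatticeBasis ℝ L
  let η : Module.Free.ChooseBasisIndex ℤ L → (V × V) →L[ℝ] ℝ := fun i =>
    (LinearMap.toContinuousLinearMap (b.coord i)).comp
      (ContinuousLinearMap.fst ℝ V V - ContinuousLinearMap.snd ℝ V V)
  have hη : ∀ i (x : V × V), η i x = b.repr (x.1 - x.2) i := fun i x => rfl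
  have hηL : ∀ i, ∀ x ∈ L.prod L, ∃ n : ℤ, η i x = n := by
    rintro i ⟨x, y⟩ ⟨hx, hy⟩
    have hxy : x - y ∈ L := L.sub_mem hx hy
    refine ⟨b₀.repr ⟨x - y, hxy⟩ i, ?_⟩
    rw [hη]
    exact b₀.ofZLatticeBasis_repr_apply ℝ L ⟨x - y, hxy⟩ i
  let S : Finset (V × V) := (s.image fun a => (a, (0 : V))) ∪ t.image fun a => ((0 : V), a)
  have hSspan : PointedCone.hull ℝ (S : Set (V × V)) =
      (PointedCone.hull ℝ (s : Set V)).prod (PointedCone.hull ℝ (t : Set V)) := by
    rw [Finset.coe_union, Finset.coe_image, Finset.coe_image]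
    exact LinearMap.span_inl_union_inr
  have hSL : (S : Set (V × V)) ⊆ (L.prod L : Submodule ℤ (V × V)) := by
    intro x hx
    rcases Finset.mem_union.1 hx with h | h
    · obtain ⟨a, ha, rfl⟩ := Finset.mem_image.1 h
      exact ⟨hs ha, L.zero_mem⟩
    · obtain ⟨a, ha, rfl⟩ := Finset.mem_image.1 h
      exact ⟨L.zero_mem, ht ha⟩
  have h1 : IsRatPoly (L.prod L) (PointedCone.hull ℝ (S : Set (V × V))) := ⟨S, hSL, rfl⟩
  have h2 := h1.inf_halfSpaces Finset.univ η fun i _ => hηL i
  have h3 := h2.inf_halfSpaces Finset.univ (fun i => -η i) (by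
    intro i _ x hx
    obtain ⟨n, hn⟩ := hηL i x hx
    refine ⟨-n, ?_⟩
    rw [neg_apply, hn]
    push_cast
    ring)
  obtain ⟨u, huL, hu⟩ := h3
  have hmem : ∀ x : V × V, x ∈ PointedCone.hull ℝ (u : Set (V × V)) ↔
      (x.1 ∈ PointedCone.hull ℝ (s : Set V) ∧ x.2 ∈ PointedCone.hull ℝ (t : Set V)) ∧
        x.1 = x.2 := by
    intro x
    rw [← hu, hSspan]
    simp only [Submodule.mem_inf, Submodule.mem_iInf, mem_halfSpace, Finset.mem_univ, forall_true_left,
      Submodule.mem_prod, neg_apply]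
    constructor
    · rintro ⟨⟨h4, h5⟩, h6⟩
      refine ⟨h4, ?_⟩
      have h7 : b.repr (x.1 - x.2) = 0 := by
        ext i
        have h8 := h5 i
        have h9 := h6 i
        rw [hη] at h8 h9
        show b.repr (x.1 - x.2) i = 0
        linarith
      have h8 := b.repr.map_eq_zero_iff.1 h7
      exact sub_eq_zero.1 h8
    · rintro ⟨h4, h5⟩
      have h6 : ∀ i, η i x = 0 := by
        intro i
        rw [hη, h5, sub_self, map_zero]
        rfl
      exact ⟨⟨h4, fun i => by rw [h6]⟩, fun i => by rw [h6, neg_zero]⟩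
  refine ⟨u.image Prod.fst, ?_, ?_⟩
  · intro x hx
    obtain ⟨y, hy, rfl⟩ := Finset.mem_image.1 hx
    exact (huL hy).1
  · have h4 : PointedCone.hull ℝ ((u.image Prod.fst : Finset V) : Set V) =
        PointedCone.map (LinearMap.fst ℝ V V) (PointedCone.hull ℝ (u : Set (V × V))) := by
      rw [Finset.coe_image]
      symm
      exact Submodule.map_span _ _
    rw [h4]
    ext x
    constructor
    · rintro ⟨hx1, hx2⟩
      exact ⟨(x, x), (hmem (x, x)).2 ⟨⟨hx1, hx2⟩, rfl⟩, rfl⟩
    · rintro ⟨y, hy, rfl⟩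
      obtain ⟨⟨h5, h6⟩, h7⟩ := (hmem y).1 hy
      exact ⟨h5, by show y.1 ∈ _; rw [h7]; exact h6⟩

variable {L : Submodule ℤ V} {P : Set V} {M : PointedCone ℝ V} {Γ : Subgroup (V ≃ₗ[ℝ] V)}

/-- The finitely many exceptional primes of the big points of a polyhedral cone in `M`. -/
theorem DivData.exists_exc (T : DivData L P M Γ) (s : Finset V) (hsM : (s : Set V) ⊆ M)
    (hsE : (s : Set V) ⊆ eff P) :
    ∃ F : Finset V, (F : Set V) ⊆ P ∧ ∀ p ∈ PointedCone.hull ℝ (s : Set V),
      p ∈ interior (eff P : Set V) → Exc P M p ⊆ F := by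
  classical
  have hfin : ∀ J : Finset V, J ⊆ s → ∑ a ∈ J, a ∈ interior (eff P : Set V) →
      (Exc P M (∑ a ∈ J, a)).Finite := fun J hJ h =>
    T.finite_exc (M.sum_mem fun a ha => hsM (hJ ha)) h
  let G : Set V := ⋃ J ∈ {J : Finset V | J ⊆ s ∧ ∑ a ∈ J, a ∈ interior (eff P : Set V)},
    Exc P M (∑ a ∈ J, a)
  have hG : G.Finite := by
    refine Set.Finite.biUnion ((s.powerset.finite_toSet).subset fun J hJ =>
      Finset.mem_coe.2 (Finset.mem_powerset.2 hJ.1)) fun J hJ => hfin J hJ.1 hJ.2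
  refine ⟨hG.toFinset, ?_, ?_⟩
  · intro D hD
    rw [Set.Finite.coe_toFinset] at hD
    simp only [G, mem_iUnion] at hD
    obtain ⟨J, -, hD⟩ := hD
    exact hD.1
  · intro p hp hpint
    rw [Set.Finite.coe_toFinset]
    obtain ⟨c, hc, hpc⟩ := mem_hull_finset.1 hp
    set J := s.filter fun a => 0 < c a with hJ
    have hJs : J ⊆ s := Finset.filter_subset _ _
    have hpJ : p = ∑ a ∈ J, c a • a := by
      rw [hpc, hJ, Finset.sum_filter]
      refine Finset.sum_congr rfl fun a ha => ?_
      by_cases h : 0 < c a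
      · rw [if_pos h]
      · rw [if_neg h, le_antisymm (not_lt.1 h) (hc a ha), zero_smul]
    have hcpos : ∀ a ∈ J, 0 < c a := fun a ha => (Finset.mem_filter.1 ha).2
    have hJint : ∑ a ∈ J, a ∈ interior (eff P : Set V) :=
      sum_interior (fun a ha => hsE (hJs ha)) hcpos (by rw [← hpJ]; exact hpint)
    intro D hD
    refine mem_biUnion (x := J) ⟨hJs, hJint⟩ ?_
    obtain ⟨ε, hε, hεc⟩ : ∃ ε : ℝ, 0 < ε ∧ ∀ a ∈ J, ε ≤ c a := by
      rcases J.eq_empty_or_nonempty with h | h
      · exact ⟨1, one_pos, fun a ha => by rw [h] at ha; exact absurd ha (Finset.notMem_empty a)⟩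
      · obtain ⟨a, ha, hmin⟩ := J.exists_min_image c h
        exact ⟨c a, hcpos a ha, hmin⟩
    have h1 : p = ε • (∑ a ∈ J, a) + ∑ a ∈ J, (c a - ε) • a := by
      rw [hpJ, Finset.smul_sum, ← Finset.sum_add_distrib]
      refine Finset.sum_congr rfl fun a _ => ?_
      rw [← add_smul]
      congr 1
      ring
    rw [h1] at hD
    exact exc_add (M.sum_mem fun a ha => PointedCone.smul_mem M (sub_nonneg.2 (hεc a ha))
      (hsM (hJs ha))) hε hD

omit [FiniteDimensional ℝ V] in
/-- A decomposition of a big class: a movable big class plus a nonnegative combination of its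
exceptional primes. -/
theorem DivData.exists_decomp (T : DivData L P M Γ) (hEint : interior (M : Set V) ⊆
    interior (eff P : Set V)) {y : V} (hy : y ∈ interior (eff P : Set V)) :
    ∃ p ∈ M, p ∈ interior (eff P : Set V) ∧ y - p ∈ PointedCone.hull ℝ (Exc P M p) := by
  classical
  obtain ⟨A, hA, T₀, hT₀, hR⟩ := T.exists_add hy
  obtain ⟨a, ha, haR⟩ := mem_hull_finset.1 hR
  let Ψ : (T₀ → ℝ) → V := fun c => y - ∑ D : T₀, c D • (D : V)
  have hΨ : Continuous Ψ := by fun_prop
  let C : Set (T₀ → ℝ) := Set.pi univ (fun D => Icc 0 (a (D : V))) ∩ Ψ ⁻¹' (M : Set V)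
  have hC : IsCompact C :=
    (isCompact_univ_pi fun _ => isCompact_Icc).inter_right (T.closed.preimage hΨ)
  have hyA : y = A + ∑ D : T₀, a (D : V) • (D : V) := by
    have h1 : ∑ D : T₀, a (D : V) • (D : V) = ∑ D ∈ T₀, a D • D :=
      Finset.sum_coe_sort T₀ fun D => a D • D
    rw [h1, ← haR]
    abel
  have hCne : C.Nonempty := by
    refine ⟨fun D => a (D : V), fun D _ => ⟨ha D D.2, le_rfl⟩, ?_⟩
    show y - ∑ D : T₀, a (D : V) • (D : V) ∈ M
    rw [hyA, add_sub_cancel_right]
    exact interior_subset hA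
  obtain ⟨n, hn, hmin⟩ := hC.exists_isMinOn hCne
    (f := fun c : T₀ → ℝ => ∑ D : T₀, c D) (by fun_prop : Continuous _).continuousOn
  have hn0 : ∀ D : T₀, 0 ≤ n D ∧ n D ≤ a (D : V) := fun D => hn.1 D (mem_univ D)
  have hp : Ψ n ∈ M := hn.2
  refine ⟨Ψ n, hp, ?_, ?_⟩
  · have h1 : Ψ n = A + ∑ D : T₀, (a (D : V) - n D) • (D : V) := by
      show y - ∑ D : T₀, n D • (D : V) = _
      rw [hyA, add_sub_assoc, ← Finset.sum_sub_distrib]
      congr 1
      exact Finset.sum_congr rfl fun D _ => (sub_smul _ _ _).symm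
    rw [h1]
    refine interior_add_mem (hEint hA) (Submodule.sum_mem _ fun D _ => ?_)
    exact PointedCone.smul_mem _ (sub_nonneg.2 (hn0 D).2) (Submodule.subset_span (hT₀ D.2))
  · have h1 : y - Ψ n = ∑ D : T₀, n D • (D : V) := by
      show y - (y - ∑ D : T₀, n D • (D : V)) = _
      abel
    rw [h1]
    refine Submodule.sum_mem _ fun D _ => ?_
    rcases (hn0 D).1.eq_or_lt with h0 | h0
    · rw [← h0, zero_smul]
      exact Submodule.zero_mem _
    · refine PointedCone.smul_mem _ h0.le (Submodule.subset_span ⟨hT₀ D.2, fun ε hε h => ?_⟩)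
      -- decrease the coefficient of `D`
      set δ : ℝ := min ε (n D) with hδ
      have hδ0 : 0 < δ := lt_min hε h0
      have hδε : δ ≤ ε := min_le_left _ _
      have hδn : δ ≤ n D := min_le_right _ _
      let n' : T₀ → ℝ := Function.update n D (n D - δ)
      have hsum : ∀ g : T₀ → V, ∑ D' : T₀, n' D' • g D' = ∑ D' : T₀, n D' • g D' - δ • g D := by
        intro g
        rw [← Finset.add_sum_erase _ _ (Finset.mem_univ D),
          ← Finset.add_sum_erase Finset.univ (fun D' => n D' • g D') (Finset.mem_univ D)]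
        have h2 : ∑ D' ∈ Finset.univ.erase D, n' D' • g D' =
            ∑ D' ∈ Finset.univ.erase D, n D' • g D' := by
          refine Finset.sum_congr rfl fun D' hD' => ?_
          show Function.update n D (n D - δ) D' • g D' = _
          rw [Function.update_of_ne (Finset.ne_of_mem_erase hD')]
        rw [h2]
        have h3 : n' D = n D - δ := Function.update_self _ _ _
        rw [h3, sub_smul]
        abel
      have hΨn' : Ψ n' = Ψ n + δ • (D : V) := by
        show y - ∑ D' : T₀, n' D' • (D' : V) = y - ∑ D' : T₀, n D' • (D' : V) + δ • (D : V)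
        rw [hsum fun D' => (D' : V)]
        abel
      have hn'C : n' ∈ C := by
        refine ⟨fun D' _ => ?_, ?_⟩
        · by_cases h4 : D' = D
          · subst h4
            show Function.update n D' (n D' - δ) D' ∈ _
            rw [Function.update_self]
            exact ⟨by linarith, by linarith [(hn0 D').2]⟩
          · show Function.update n D (n D - δ) D' ∈ _
            rw [Function.update_of_ne h4]
            exact hn0 D'
        · show Ψ n' ∈ M
          rw [hΨn']
          have h5 : Ψ n + δ • (D : V) = (1 - δ / ε) • Ψ n + (δ / ε) • (Ψ n + ε • (D : V)) := by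
            rw [smul_add, smul_smul, div_mul_cancel₀ _ hε.ne', ← add_assoc, ← add_smul]
            simp
          rw [h5]
          refine M.add_mem (PointedCone.smul_mem M ?_ hp) (PointedCone.smul_mem M (by positivity) h)
          rw [sub_nonneg, div_le_one hε]
          exact hδε
      have h6 : ∑ D' : T₀, n D' ≤ ∑ D' : T₀, n' D' := hmin hn'C
      have h7 : ∑ D' : T₀, n' D' = ∑ D' : T₀, n D' - δ := by
        rw [← Finset.add_sum_erase _ _ (Finset.mem_univ D),
          ← Finset.add_sum_erase Finset.univ (fun D' => n D') (Finset.mem_univ D)]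
        have h2 : ∑ D' ∈ Finset.univ.erase D, n' D' = ∑ D' ∈ Finset.univ.erase D, n D' := by
          refine Finset.sum_congr rfl fun D' hD' => ?_
          show Function.update n D (n D - δ) D' = _
          rw [Function.update_of_ne (Finset.ne_of_mem_erase hD')]
        rw [h2]
        have h3 : n' D = n D - δ := Function.update_self _ _ _
        rw [h3]
        ring
      linarith

variable [DiscreteTopology L] [IsZLattice ℝ L]

/-- If the translates of a rational polyhedral cone `hull s ≤ M ⊓ eff P` cover `M ⊓ eff P`, then `Γ`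
has a rational polyhedral fundamental domain on `eff P`. -/
theorem DivData.hasRPFD_eff (T : DivData L P M Γ) (h : HasRPFD L Γ (M ⊓ eff P)) :
    HasRPFD L Γ (eff P) := by
  classical
  obtain ⟨R, ⟨s, hsL, rfl⟩, hcov, -⟩ := h
  have hle : PointedCone.hull ℝ (s : Set V) ≤ M ⊓ eff P := by
    intro x hx
    show x ∈ ((M ⊓ eff P : PointedCone ℝ V) : Set V)
    rw [hcov]
    exact mem_biUnion (one_mem Γ) ⟨x, hx, rfl⟩
  have hex : ∀ x ∈ M ⊓ eff P, ∃ g ∈ Γ, ∃ y ∈ PointedCone.hull ℝ (s : Set V), g y = x := by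
    intro x hx
    have hx' : x ∈ ((M ⊓ eff P : PointedCone ℝ V) : Set V) := hx
    rw [hcov] at hx'
    simp only [mem_iUnion] at hx'
    obtain ⟨g, hg, y, hy, hyx⟩ := hx'
    exact ⟨g, hg, y, hy, hyx⟩
  have hsM : (s : Set V) ⊆ M := fun a ha => (hle (Submodule.subset_span ha)).1
  have hsE : (s : Set V) ⊆ eff P := fun a ha => (hle (Submodule.subset_span ha)).2
  obtain ⟨F, hFP, hF⟩ := T.exists_exc s hsM hsE
  have hUL : ((s ∪ F : Finset V) : Set V) ⊆ L := by
    rw [Finset.coe_union]
    exact union_subset hsL (hFP.trans T.prime_lattice)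
  have hUE : ((s ∪ F : Finset V) : Set V) ⊆ eff P := by
    rw [Finset.coe_union]
    exact union_subset hsE (hFP.trans Submodule.subset_span)
  have hint : ∀ x ∈ interior (eff P : Set V), ∃ g ∈ Γ,
      ∃ y ∈ PointedCone.hull ℝ ((s ∪ F : Finset V) : Set V), g y = x := by
    intro y hy
    obtain ⟨p, hpM, hpE, hyp⟩ := T.exists_decomp T.data.intN_subset hy
    obtain ⟨g, hg, q, hq, rfl⟩ := hex p ⟨hpM, interior_subset hpE⟩
    refine ⟨g, hg, g⁻¹ y, ?_, g.apply_symm_apply y⟩
    have hqE : q ∈ interior (eff P : Set V) := by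
      have h1 := interior_map_mem (fun x hx => T.map_eff (inv_mem hg) hx) hpE
      have h2 : g⁻¹ (g q) = q := g.symm_apply_apply q
      rwa [h2] at h1
    have h1 : g⁻¹ y = q + g⁻¹ (y - g q) := by
      rw [map_sub]
      have h2 : g⁻¹ (g q) = q := g.symm_apply_apply q
      rw [h2]
      abel
    rw [h1]
    refine Submodule.add_mem _ (hull_mono_finset Finset.subset_union_left hq) ?_
    have h3 : g⁻¹ (y - g q) ∈ imageCone g⁻¹ (PointedCone.hull ℝ (Exc P M (g q))) :=
      ⟨_, hyp, rfl⟩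
    refine (?_ : imageCone g⁻¹ (PointedCone.hull ℝ (Exc P M (g q))) ≤ _) h3
    have h4 : imageCone g⁻¹ (PointedCone.hull ℝ (Exc P M (g q))) =
        PointedCone.hull ℝ ((g⁻¹ : V ≃ₗ[ℝ] V) '' Exc P M (g q)) := Submodule.map_span _ _
    rw [h4]
    refine Submodule.span_mono ?_
    rintro _ ⟨D, hD, rfl⟩
    rw [Finset.coe_union]
    exact Or.inr (hF q hq hqE (T.exc_map hg hD))
  have hall := closing T.data.settingE (s ∪ F) hUL hUE (fun x hx => T.data.exists_finset hx) hint
  refine exists_fundDomain T.data.settingE (P₁ := PointedCone.hull ℝ ((s ∪ F : Finset V) : Set V))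
    ⟨s ∪ F, hUL, rfl⟩ ?_
  apply Subset.antisymm
  · intro x hx
    obtain ⟨g, hg, y, hy, hyx⟩ := hall x hx
    exact mem_biUnion hg ⟨y, hy, hyx⟩
  · refine iUnion₂_subset fun g hg => ?_
    rintro _ ⟨x, hx, rfl⟩
    exact T.map_eff hg ((Submodule.span_le.2 hUE : PointedCone.hull ℝ _ ≤ eff P) hx)

/-- If `Γ` has a rational polyhedral fundamental domain on `M ⊓ eff P`, then `M` meets every rational
polyhedral cone in `eff P` in a rational polyhedral cone. -/
theorem DivData.isRatPoly_mov (T : DivData L P M Γ) (h : HasRPFD L Γ (M ⊓ eff P)) (t : Finset V)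
    (htL : (t : Set V) ⊆ L) (htE : (t : Set V) ⊆ eff P) :
    IsRatPoly L (M ⊓ PointedCone.hull ℝ (t : Set V)) := by
  classical
  obtain ⟨R, ⟨s, hsL, rfl⟩, hcov, -⟩ := h
  have hle : PointedCone.hull ℝ (s : Set V) ≤ M ⊓ eff P := by
    intro x hx
    show x ∈ ((M ⊓ eff P : PointedCone ℝ V) : Set V)
    rw [hcov]
    exact mem_biUnion (one_mem Γ) ⟨x, hx, rfl⟩
  have hex : ∀ x ∈ M ⊓ eff P, ∃ g ∈ Γ, ∃ y ∈ PointedCone.hull ℝ (s : Set V), g y = x := by
    intro x hx
    have hx' : x ∈ ((M ⊓ eff P : PointedCone ℝ V) : Set V) := hx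
    rw [hcov] at hx'
    simp only [mem_iUnion] at hx'
    obtain ⟨g, hg, y, hy, hyx⟩ := hx'
    exact ⟨g, hg, y, hy, hyx⟩
  have hsE : (s : Set V) ⊆ eff P := fun a ha => (hle (Submodule.subset_span ha)).2
  obtain ⟨f, hf⟩ := exists_pos (eff P) T.salient
  obtain ⟨e, he⟩ := T.interior_nonempty
  obtain ⟨v, hv, hev⟩ := exists_hull_interior (L := L) (T.data.intN_subset he)
  have hfin := siegel T.data.settingE f hf s hsL hsE (t ∪ v)
    (by rw [Finset.coe_union]; exact union_subset htL fun p hp => (hv p hp).1)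
    (by rw [Finset.coe_union]; exact union_subset htE fun p hp => interior_subset (hv p hp).2)
  set Φ := hfin.toFinset with hΦ
  have hΦΓ : ∀ g ∈ Φ, g ∈ Γ := fun g hg => (hfin.mem_toFinset.1 hg).1
  have hcl : IsClosed (⋃ g ∈ (Φ : Set (V ≃ₗ[ℝ] V)),
      (g : V → V) '' (PointedCone.hull ℝ (s : Set V) : Set V)) :=
    Φ.finite_toSet.isClosed_biUnion fun g _ =>
      g.toContinuousLinearEquiv.toHomeomorph.isClosedMap _ (isClosed_hull f hf s hsE)
  have hmem : ∀ z ∈ M ⊓ PointedCone.hull ℝ (t : Set V), ∃ g ∈ Φ,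
      ∃ y ∈ PointedCone.hull ℝ (s : Set V), g y = z := by
    rintro z ⟨hzM, hzt⟩
    have hz : z ∈ ⋃ g ∈ (Φ : Set (V ≃ₗ[ℝ] V)),
        (g : V → V) '' (PointedCone.hull ℝ (s : Set V) : Set V) := by
      rw [← hcl.closure_eq, mem_closure_iff_frequently]
      refine (tendsto_add_smul z e).frequently (p := fun y => y ∈ ⋃ g ∈ (Φ : Set (V ≃ₗ[ℝ] V)),
        (g : V → V) '' (PointedCone.hull ℝ (s : Set V) : Set V)) (Filter.Frequently.of_forall ?_)
      intro n
      have hint : z + (1 / ((n : ℝ) + 1)) • e ∈ interior (M : Set V) := by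
        rw [add_comm]
        exact interior_add_mem (interior_smul_mem he (by positivity)) hzM
      obtain ⟨g, hg, y, hy, hgy⟩ := hex _ ⟨interior_subset hint,
        interior_subset (T.data.intN_subset hint)⟩
      refine mem_biUnion (x := g) (Finset.mem_coe.2 (hfin.mem_toFinset.2 ⟨hg, y, hy, ?_, ?_⟩))
        ⟨y, hy, hgy⟩
      · rw [hgy]
        refine Submodule.add_mem _ (hull_mono_finset Finset.subset_union_left hzt) ?_
        exact PointedCone.smul_mem _ (by positivity) (hull_mono_finset Finset.subset_union_right hev)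
      · rw [hgy]
        exact T.data.intN_subset hint
    simp only [mem_iUnion] at hz
    obtain ⟨g, hg, y, hy, hyz⟩ := hz
    exact ⟨g, Finset.mem_coe.1 hg, y, hy, hyz⟩
  have heq : M ⊓ PointedCone.hull ℝ (t : Set V) =
      ⨆ g ∈ Φ, (imageCone g (PointedCone.hull ℝ (s : Set V)) ⊓ PointedCone.hull ℝ (t : Set V)) := by
    apply le_antisymm
    · intro z hz
      obtain ⟨g, hg, y, hy, hyz⟩ := hmem z hz
      exact (le_iSup₂ (f := fun g (_ : g ∈ Φ) => imageCone g (PointedCone.hull ℝ (s : Set V)) ⊓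
        PointedCone.hull ℝ (t : Set V)) g hg) ⟨⟨y, hy, hyz⟩, hz.2⟩
    · refine iSup₂_le fun g hg => inf_le_inf_right _ (imageCone_le fun x hx => ?_)
      exact T.map_mov g (hΦΓ g hg) x (hle hx).1
  rw [heq]
  exact IsRatPoly.biSup Φ _ fun g hg => isRatPoly_inf
    (IsRatPoly.image ⟨s, hsL, rfl⟩ g (T.map_lattice g (hΦΓ g hg))) ⟨t, htL, rfl⟩

/-- **The cone conjecture for the movable cone and for the effective cone.** -/
theorem effective_iff (T : DivData L P M Γ) : HasRPFD L Γ (M ⊓ eff P) ↔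
    HasRPFD L Γ (eff P) ∧ ∀ s : Finset V, (s : Set V) ⊆ L → (s : Set V) ⊆ eff P →
      IsRatPoly L (M ⊓ PointedCone.hull ℝ (s : Set V)) := by
  constructor
  · exact fun h => ⟨T.hasRPFD_eff h, fun s hsL hsE => T.isRatPoly_mov h s hsL hsE⟩
  · rintro ⟨⟨R, ⟨s, hsL, rfl⟩, hcov, -⟩, hloc⟩
    have hle : PointedCone.hull ℝ (s : Set V) ≤ eff P := by
      intro x hx
      show x ∈ (eff P : Set V)
      rw [hcov]
      exact mem_biUnion (one_mem Γ) ⟨x, hx, rfl⟩
    have hsE : (s : Set V) ⊆ eff P := fun a ha => hle (Submodule.subset_span ha)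
    refine exists_fundDomain T.data.settingNE (hloc s hsL hsE) ?_
    apply Subset.antisymm
    · rintro x ⟨hxM, hxE⟩
      have hxE' : x ∈ (eff P : Set V) := hxE
      rw [hcov] at hxE'
      simp only [mem_iUnion] at hxE'
      obtain ⟨g, hg, y, hy, rfl⟩ := hxE'
      refine mem_biUnion hg ⟨y, ⟨?_, hy⟩, rfl⟩
      have h1 := T.map_mov _ (inv_mem hg) _ hxM
      have h2 : g⁻¹ (g y) = y := g.symm_apply_apply y
      rwa [h2] at h1
    · refine iUnion₂_subset fun g hg => ?_
      rintro _ ⟨x, hx, rfl⟩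
      exact ⟨T.map_mov g hg x hx.1, T.map_eff hg (hle hx.2)⟩

omit [DiscreteTopology L] [IsZLattice ℝ L] in
/-- The exceptional primes of the big movable classes form finitely many `Γ`-orbits. -/
theorem finite_orbits_exc (T : DivData L P M Γ) (h : HasRPFD L Γ (M ⊓ eff P)) :
    ∃ F : Finset V, (F : Set V) ⊆ P ∧ ∀ p ∈ M, p ∈ interior (eff P : Set V) → ∀ D ∈ Exc P M p,
      ∃ g ∈ Γ, g D ∈ F := by
  obtain ⟨R, ⟨s, hsL, rfl⟩, hcov, -⟩ := h
  have hle : PointedCone.hull ℝ (s : Set V) ≤ M ⊓ eff P := by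
    intro x hx
    show x ∈ ((M ⊓ eff P : PointedCone ℝ V) : Set V)
    rw [hcov]
    exact mem_biUnion (one_mem Γ) ⟨x, hx, rfl⟩
  obtain ⟨F, hFP, hF⟩ := T.exists_exc s (fun a ha => (hle (Submodule.subset_span ha)).1)
    (fun a ha => (hle (Submodule.subset_span ha)).2)
  refine ⟨F, hFP, fun p hp hpE D hD => ?_⟩
  have hpME : p ∈ ((M ⊓ eff P : PointedCone ℝ V) : Set V) := ⟨hp, interior_subset hpE⟩
  rw [hcov] at hpME
  simp only [mem_iUnion] at hpME
  obtain ⟨g, hg, q, hq, rfl⟩ := hpME
  have hqE : q ∈ interior (eff P : Set V) := by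
    have h1 := interior_map_mem (fun x hx => T.map_eff (inv_mem hg) hx) hpE
    have h2 : g⁻¹ (g q) = q := g.symm_apply_apply q
    rwa [h2] at h1
  exact ⟨g⁻¹, inv_mem hg, hF q hq hqE (T.exc_map hg hD)⟩

/-- **Non-vanishing.** If `Γ` has a rational polyhedral fundamental domain on `M ⊓ eff P`, then the
lattice points in the closure of the effective cone are effective. -/
theorem nonvanishing (T : DivData L P M Γ) (h : HasRPFD L Γ (M ⊓ eff P)) :
    ∀ x ∈ L, x ∈ closure (eff P : Set V) → x ∈ eff P := by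
  obtain ⟨R, ⟨s, hsL, rfl⟩, hcov, -⟩ := T.hasRPFD_eff h
  have hle : PointedCone.hull ℝ (s : Set V) ≤ eff P := by
    intro x hx
    show x ∈ (eff P : Set V)
    rw [hcov]
    exact mem_biUnion (one_mem Γ) ⟨x, hx, rfl⟩
  let Q : PointedCone ℝ V := PointedCone.hull ℝ (closure (eff P : Set V) ∩ (L : Set V))
  have hQcl : (Q : Set V) ⊆ closure (eff P : Set V) := by
    have h1 : Q ≤ PointedCone.closure (eff P) := Submodule.span_le.2 fun x hx => hx.1
    exact fun x hx => h1 hx
  have hPQ : P ⊆ Q := fun D hD =>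
    Submodule.subset_span ⟨subset_closure (Submodule.subset_span hD), T.prime_lattice hD⟩
  have hEQ : eff P ≤ Q := Submodule.span_le.2 hPQ
  have hmapcl : ∀ g ∈ Γ, ∀ x ∈ closure (eff P : Set V), g x ∈ closure (eff P : Set V) := by
    intro g hg x hx
    have h1 : g x ∈ closure ((g : V → V) '' (eff P : Set V)) :=
      image_closure_subset_closure_image g.toContinuousLinearEquiv.continuous ⟨x, hx, rfl⟩
    refine closure_mono ?_ h1
    rintro _ ⟨y, hy, rfl⟩
    exact T.map_eff hg hy
  have hS : Setting L Q Γ := by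
    refine ⟨?_, ?_, T.map_lattice, ?_⟩
    · have hcl : closure (Q : Set V) ⊆ closure (eff P : Set V) :=
        closure_minimal hQcl isClosed_closure
      exact fun x hx hx' => T.salient x (hcl hx) (hcl hx')
    · obtain ⟨e, he⟩ := T.data.intE
      exact ⟨e, interior_mono hEQ he⟩
    · intro g hg x hx
      have h1 : imageCone g Q ≤ Q := by
        have h2 : imageCone g Q = PointedCone.hull ℝ
            ((g : V → V) '' (closure (eff P : Set V) ∩ (L : Set V))) := Submodule.map_span _ _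
        rw [h2]
        refine Submodule.span_mono ?_
        rintro _ ⟨y, hy, rfl⟩
        exact ⟨hmapcl g hg y hy.1, T.map_lattice g hg y hy.2⟩
      exact h1 ⟨x, hx, rfl⟩
  have hconv : Convex ℝ (eff P : Set V) := PointedCone.convex _
  have hintQ : interior (Q : Set V) ⊆ interior (eff P : Set V) := by
    rw [← hconv.interior_closure_eq_interior_of_nonempty_interior T.data.intE]
    exact interior_mono hQcl
  intro x hxL hx
  obtain ⟨g, hg, y, hy, rfl⟩ := closing hS s hsL (fun a ha => hEQ (hle (Submodule.subset_span ha)))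
    (fun x hx => by
      obtain ⟨u, hu, hxu⟩ := Submodule.mem_span_finite_of_mem_span hx
      exact ⟨u, fun a ha => (hu ha).2, fun a ha => Submodule.subset_span (hu ha), hxu⟩)
    (fun x hx => by
      have hxE : x ∈ (eff P : Set V) := interior_subset (hintQ hx)
      rw [hcov] at hxE
      simp only [mem_iUnion] at hxE
      obtain ⟨g, hg, y, hy, hyx⟩ := hxE
      exact ⟨g, hg, y, hy, hyx⟩) x (Submodule.subset_span ⟨hx, hxL⟩)
  exact T.map_eff hg (hle hy)

end Pool.Agent.Lib.Pad47bbD
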