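import Pool.Agent.Lib.Pad47bbD.Primes

/-!
The movable cone of the family of the classes of all prime divisors.

Dictionary. `X` is a `ℚ`-factorial projective variety, `ι` the set of its prime divisors, `f i` the
class of `i` in `V = N¹(X)_ℝ`. A class is in the closed movable cone if and only if it is, for every
prime divisor `i`, a limit of classes of effective divisors without the component `i`.
-/

open Set Topology

namespace Pool.Agent.Lib.Pad47bbD

open Pool.Agent.Lib.Pad47bb Pool.Agent.Lib.Pad47bbQ Pool.Agent.Lib.Pad47bbM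

variable {V : Type*} [NormedAddCommGroup V] [NormedSpace ℝ V] {ι : Type*}

/-- The movable cone of a family `f`: the points of the closure of the cone generated by the family
which for every index `i` lie in the closure of the cone generated by the `f j`, `j ≠ i`. -/
def movF (f : ι → V) : PointedCone ℝ V :=
  PointedCone.closure (eff (range f)) ⊓ ⨅ i, PointedCone.closure (PointedCone.hull ℝ (f '' {i}ᶜ))

theorem mem_movF {f : ι → V} {x : V} : x ∈ movF f ↔ x ∈ closure (eff (range f) : Set V) ∧
    ∀ i, x ∈ closure (PointedCone.hull ℝ (f '' {i}ᶜ) : Set V) := by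
  simp only [movF, Submodule.mem_inf, Submodule.mem_iInf]
  rfl

/-- A lattice `L`, a family `f` of lattice vectors and a group `Γ` of automorphisms of the lattice
which permutes the family; the closure of the cone generated by the family contains no line, and
`movF f` has interior points. -/
structure FamData (L : Submodule ℤ V) (f : ι → V) (Γ : Subgroup (V ≃ₗ[ℝ] V)) : Prop where
  lattice : ∀ i, f i ∈ L
  salient : ∀ x ∈ closure (eff (range f) : Set V), -x ∈ closure (eff (range f) : Set V) → x = 0
  interior_nonempty : (interior (movF f : Set V)).Nonempty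
  map_lattice : ∀ g ∈ Γ, ∀ x ∈ L, g x ∈ L
  perm : ∀ g ∈ Γ, ∃ σ : Equiv.Perm ι, ∀ i, g (f i) = f (σ i)

theorem isClosed_movF (f : ι → V) : IsClosed (movF f : Set V) := by
  have h : (movF f : Set V) = closure (eff (range f) : Set V) ∩
      ⋂ i, closure (PointedCone.hull ℝ (f '' {i}ᶜ) : Set V) := by
    ext x
    rw [SetLike.mem_coe, mem_movF]
    simp
  rw [h]
  exact isClosed_closure.inter (isClosed_iInter fun i => isClosed_closure)

theorem add_mem_closure {C : PointedCone ℝ V} {x y : V} (hx : x ∈ closure (C : Set V))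
    (hy : y ∈ C) : x + y ∈ closure (C : Set V) :=
  (PointedCone.closure C).add_mem hx (subset_closure hy)

theorem movF_join {f : ι → V} {x D z : V} {a : ℝ} (hD : D ∈ range f) (ha : 0 ≤ a)
    (hz : z ∈ PointedCone.hull ℝ (range f \ {D})) (h1 : x + a • D ∈ movF f)
    (h2 : x + z ∈ movF f) : x + a • D + z ∈ movF f := by
  refine mem_movF.2 ⟨?_, fun j => ?_⟩
  · exact add_mem_closure (mem_movF.1 h1).1 (Submodule.span_mono sdiff_subset hz)
  · by_cases h : f j = D
    · refine add_mem_closure ((mem_movF.1 h1).2 j) (Submodule.span_mono ?_ hz)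
      rintro _ ⟨⟨k, rfl⟩, hk⟩
      refine ⟨k, fun hkj => hk ?_, rfl⟩
      rw [mem_singleton_iff.1 hkj]
      exact h
    · obtain ⟨i, rfl⟩ := hD
      have h3 : f i ∈ PointedCone.hull ℝ (f '' {j}ᶜ) :=
        Submodule.subset_span ⟨i, fun hij => h (by rw [mem_singleton_iff.1 hij]), rfl⟩
      have h4 : x + a • f i + z = x + z + a • f i := by abel
      rw [h4]
      exact add_mem_closure ((mem_movF.1 h2).2 j) (PointedCone.smul_mem _ ha h3)

variable {L : Submodule ℤ V} {f : ι → V} {Γ : Subgroup (V ≃ₗ[ℝ] V)}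

theorem FamData.divData [FiniteDimensional ℝ V] (T : FamData L f Γ) :
    DivData L (range f) (movF f) Γ where
  prime_lattice := by
    rintro _ ⟨i, rfl⟩
    exact T.lattice i
  closed := isClosed_movF f
  interior_nonempty := T.interior_nonempty
  mov_subset := fun _ hx => (mem_movF.1 hx).1
  salient := T.salient
  join := fun _ _ _ _ hD ha hz h1 h2 => movF_join hD ha hz h1 h2
  map_lattice := T.map_lattice
  map_prime := by
    rintro g hg _ ⟨i, rfl⟩
    obtain ⟨σ, hσ⟩ := T.perm g hg
    exact ⟨σ i, (hσ i).symm⟩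
  map_mov := by
    intro g hg x hx
    obtain ⟨σ, hσ⟩ := T.perm g hg
    obtain ⟨h1, h2⟩ := mem_movF.1 hx
    refine mem_movF.2 ⟨map_closure_hull (B := range f) ?_ h1, fun i => ?_⟩
    · rintro _ ⟨k, rfl⟩
      exact ⟨σ k, (hσ k).symm⟩
    · have h3 : ∀ y ∈ f '' {σ.symm i}ᶜ, g y ∈ f '' {i}ᶜ := by
        rintro _ ⟨k, hk, rfl⟩
        refine ⟨σ k, fun h => hk ?_, (hσ k).symm⟩
        rw [mem_singleton_iff, ← mem_singleton_iff.1 h, Equiv.symm_apply_apply]
      exact map_closure_hull h3 (h2 _)

/-- A finite set of indices is contractible if it consists of exceptional primes of one big movable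
class `p`: no class `p + ε f i`, `ε > 0`, is movable. -/
def ContractibleF (f : ι → V) (S : Finset ι) : Prop :=
  ∃ p ∈ movF f, p ∈ interior (eff (range f) : Set V) ∧
    ∀ i ∈ S, ∀ ε : ℝ, 0 < ε → p + ε • f i ∉ movF f

theorem ContractibleF.contractible [DecidableEq V] {S : Finset ι} (h : ContractibleF f S) :
    Contractible (range f) (movF f) ((S.image f : Finset V) : Set V) := by
  obtain ⟨p, hp, hpE, hS⟩ := h
  refine ⟨p, hp, hpE, ?_⟩
  intro D hD
  obtain ⟨i, hi, rfl⟩ := Finset.mem_image.1 hD
  exact ⟨⟨i, rfl⟩, hS i hi⟩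

/-- a nonnegative combination -/
theorem lc_mem {A : Set ι} {n : ι →₀ ℝ} (h0 : ∀ i, 0 ≤ n i) (hA : ∀ i, i ∉ A → n i = 0) :
    Finsupp.linearCombination ℝ f n ∈ PointedCone.hull ℝ (f '' A) := by
  rw [Finsupp.linearCombination_apply]
  refine Submodule.sum_mem _ fun i hi => ?_
  refine PointedCone.smul_mem _ (h0 i) (Submodule.subset_span ⟨i, ?_, rfl⟩)
  by_contra h
  exact (Finsupp.mem_support_iff.1 hi) (hA i h)

theorem exists_finsupp {A : Set ι} {x : V} (hx : x ∈ PointedCone.hull ℝ (f '' A)) :
    ∃ n : ι →₀ ℝ, (∀ i, 0 ≤ n i) ∧ (∀ i, i ∉ A → n i = 0) ∧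
      Finsupp.linearCombination ℝ f n = x := by
  classical
  induction hx using Submodule.span_induction with
  | mem x hx =>
    obtain ⟨i, hi, rfl⟩ := hx
    refine ⟨Finsupp.single i 1, fun k => ?_, fun k hk => ?_, ?_⟩
    · rw [Finsupp.single_apply]
      split_ifs <;> norm_num
    · rw [Finsupp.single_apply, if_neg]
      rintro rfl
      exact hk hi
    · rw [Finsupp.linearCombination_single, one_smul]
  | zero => exact ⟨0, fun _ => le_rfl, fun _ _ => rfl, map_zero _⟩
  | add x y _ _ hx hy =>
    obtain ⟨n, hn0, hnA, rfl⟩ := hx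
    obtain ⟨m, hm0, hmA, rfl⟩ := hy
    refine ⟨n + m, fun i => add_nonneg (hn0 i) (hm0 i), fun i hi => ?_, map_add _ _ _⟩
    rw [Finsupp.add_apply, hnA i hi, hmA i hi, add_zero]
  | smul c x _ hx =>
    obtain ⟨n, hn0, hnA, rfl⟩ := hx
    refine ⟨(c : ℝ) • n, fun i => mul_nonneg c.2 (hn0 i), fun i hi => ?_, ?_⟩
    · rw [Finsupp.smul_apply, hnA i hi, smul_zero]
    · rw [map_smul]
      rfl

/-- The classes `x - n` which are movable are closed under minima of the effective divisors `n`. -/
theorem movF_inf {x : V} {n m : ι →₀ ℝ} (hn : x - Finsupp.linearCombination ℝ f n ∈ movF f)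
    (hm : x - Finsupp.linearCombination ℝ f m ∈ movF f) :
    x - Finsupp.linearCombination ℝ f (n ⊓ m) ∈ movF f := by
  have key : ∀ (a b : ι →₀ ℝ) (A : Set ι), (∀ i, (b : ι →₀ ℝ) i ≤ a i) →
      (∀ i, i ∉ A → a i = b i) → x - Finsupp.linearCombination ℝ f a ∈
        closure (PointedCone.hull ℝ (f '' A) : Set V) →
      x - Finsupp.linearCombination ℝ f b ∈ closure (PointedCone.hull ℝ (f '' A) : Set V) := by
    intro a b A hba hA ha
    have h1 : x - Finsupp.linearCombination ℝ f b = (x - Finsupp.linearCombination ℝ f a) +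
        Finsupp.linearCombination ℝ f (a - b) := by
      rw [map_sub]
      abel
    rw [h1]
    refine add_mem_closure ha (lc_mem (fun i => ?_) fun i hi => ?_)
    · rw [Finsupp.sub_apply]
      exact sub_nonneg.2 (hba i)
    · rw [Finsupp.sub_apply, hA i hi, sub_self]
  refine mem_movF.2 ⟨?_, fun i => ?_⟩
  · have h1 := (mem_movF.1 hn).1
    rw [← image_univ] at h1 ⊢
    exact key n (n ⊓ m) univ (fun i => by rw [Finsupp.inf_apply]; exact inf_le_left)
      (fun i hi => absurd (mem_univ i) hi) h1
  · rcases le_total (n i) (m i) with h | h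
    · refine key n (n ⊓ m) {i}ᶜ (fun k => by rw [Finsupp.inf_apply]; exact inf_le_left)
        (fun k hk => ?_) ((mem_movF.1 hn).2 i)
      have hki : k = i := by simpa using hk
      rw [hki, Finsupp.inf_apply, inf_eq_left.2 h]
    · refine key m (n ⊓ m) {i}ᶜ (fun k => by rw [Finsupp.inf_apply]; exact inf_le_right)
        (fun k hk => ?_) ((mem_movF.1 hm).2 i)
      have hki : k = i := by simpa using hk
      rw [hki, Finsupp.inf_apply, inf_eq_right.2 h]

end Pool.Agent.Lib.Pad47bbD
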