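import Pool.Agent.Lib.Pad47bbD.Cells

/-!
Contractible sets: no nonzero class in their span is movable; every big movable class has a movable
lift for which the set is exceptional.
-/

open Set Topology

namespace Pool.Agent.Lib.Pad47bbD

open Pool.Agent.Lib.Pad47bb Pool.Agent.Lib.Pad47bbQ Pool.Agent.Lib.Pad47bbM

variable {V : Type*} [NormedAddCommGroup V] [NormedSpace ℝ V]
  {L : Submodule ℤ V} {P : Set V} {M : PointedCone ℝ V} {Γ : Subgroup (V ≃ₗ[ℝ] V)}

/-- The span of a contractible set contains no nonzero movable class. -/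
theorem DivData.span_inf (T : DivData L P M Γ) {S : Finset V}
    (hS : Contractible P M (S : Set V)) {x : V} (hx : x ∈ M)
    (hxS : x ∈ Submodule.span ℝ (S : Set V)) : x = 0 := by
  classical
  obtain ⟨p, hp, hpE, hSp⟩ := hS
  obtain ⟨φ, _, hφ⟩ := Submodule.mem_span_finset.1 hxS
  by_cases hpos : ∃ D ∈ S, 0 < φ D
  swap
  · -- all coefficients are nonpositive
    push Not at hpos
    have h1 : -x ∈ eff P := by
      rw [← hφ, ← Finset.sum_neg_distrib]
      refine Submodule.sum_mem _ fun D hD => ?_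
      rw [← neg_smul]
      exact PointedCone.smul_mem _ (by linarith [hpos D hD]) (Submodule.subset_span (hSp hD).1)
    exact T.salient x (T.mov_subset hx) (subset_closure h1)
  exfalso
  obtain ⟨A, hA, T₀, hT₀, hR⟩ := T.exists_add hpE
  -- coefficients of `p - A` on `T₀ ∪ S`
  obtain ⟨r, hr0, hr⟩ : ∃ r : V → ℝ, (∀ a ∈ T₀ ∪ S, 0 ≤ r a) ∧ p - A = ∑ a ∈ T₀ ∪ S, r a • a := by
    have h1 : p - A ∈ PointedCone.hull ℝ ((T₀ ∪ S : Finset V) : Set V) := by
      refine Submodule.span_mono ?_ hR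
      rw [Finset.coe_union]
      exact subset_union_left
    exact mem_hull_finset.1 h1
  have hUP : ∀ a ∈ T₀ ∪ S, a ∈ P := by
    intro a ha
    rcases Finset.mem_union.1 ha with h | h
    · exact hT₀ h
    · exact (hSp h).1
  let I : Finset V := S.filter fun D => 0 < φ D
  have hI : I.Nonempty := by
    obtain ⟨D, hD, h⟩ := hpos
    exact ⟨D, Finset.mem_filter.2 ⟨hD, h⟩⟩
  obtain ⟨D₁, hD₁, hmin⟩ := I.exists_min_image (fun D => r D / φ D) hI
  have hD₁S : D₁ ∈ S := (Finset.mem_filter.1 hD₁).1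
  have hφ₁ : 0 < φ D₁ := (Finset.mem_filter.1 hD₁).2
  set lam : ℝ := r D₁ / φ D₁ with hlam
  have hlam0 : 0 ≤ lam := div_nonneg (hr0 D₁ (Finset.mem_union_right _ hD₁S)) hφ₁.le
  let ψ : V → ℝ := fun a => if a ∈ S then φ a else 0
  have hxψ : x = ∑ a ∈ T₀ ∪ S, ψ a • a := by
    rw [← hφ]
    have h1 : ∑ a ∈ S, φ a • a = ∑ a ∈ S, ψ a • a :=
      Finset.sum_congr rfl fun a ha => by simp only [ψ, if_pos ha]
    rw [h1]
    refine Finset.sum_subset Finset.subset_union_right fun a _ ha => ?_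
    simp only [ψ, if_neg ha, zero_smul]
  have hcoef : ∀ a ∈ T₀ ∪ S, 0 ≤ r a - lam * ψ a := by
    intro a ha
    by_cases haS : a ∈ S
    · have hψ : ψ a = φ a := if_pos haS
      rw [hψ]
      rcases le_or_gt (φ a) 0 with h | h
      · nlinarith [hr0 a ha]
      · have h1 : lam ≤ r a / φ a := hmin a (Finset.mem_filter.2 ⟨haS, h⟩)
        rw [le_div_iff₀ h] at h1
        linarith
    · have hψ : ψ a = 0 := if_neg haS
      rw [hψ, mul_zero, sub_zero]
      exact hr0 a ha
  have hcoef₁ : r D₁ - lam * ψ D₁ = 0 := by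
    have hψ : ψ D₁ = φ D₁ := if_pos hD₁S
    rw [hψ, hlam, div_mul_cancel₀ _ hφ₁.ne', sub_self]
  have hR' : p - A - lam • x ∈ PointedCone.hull ℝ (P \ {D₁}) := by
    have h1 : p - A - lam • x = ∑ a ∈ T₀ ∪ S, (r a - lam * ψ a) • a := by
      rw [hr, hxψ, Finset.smul_sum, ← Finset.sum_sub_distrib]
      refine Finset.sum_congr rfl fun a _ => ?_
      rw [sub_smul, smul_smul]
    rw [h1]
    refine Submodule.sum_mem _ fun a ha => ?_
    by_cases haD : a = D₁
    · rw [haD, hcoef₁, zero_smul]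
      exact Submodule.zero_mem _
    · exact PointedCone.smul_mem _ (hcoef a ha) (Submodule.subset_span ⟨hUP a ha, haD⟩)
  have hA' : A + lam • x ∈ interior (M : Set V) :=
    interior_add_mem hA (PointedCone.smul_mem M hlam0 hx)
  exact T.not_exc hp hA' (hSp hD₁S).1 hR' (by abel) (hSp hD₁S)

variable [FiniteDimensional ℝ V]

/-- Lifting: a movable class `q` can be changed by an effective combination of the elements of a
contractible set `S` to a movable class for which all elements of `S` are exceptional. -/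
theorem DivData.exists_lift (T : DivData L P M Γ) {S : Finset V}
    (hS : Contractible P M (S : Set V)) {q : V} (hq : q ∈ M) :
    ∃ p ∈ M, p - q ∈ PointedCone.hull ℝ (S : Set V) ∧ (S : Set V) ⊆ Exc P M p := by
  classical
  have hSP : ∀ D ∈ S, D ∈ P := by
    obtain ⟨p, _, _, h⟩ := hS
    exact fun D hD => (h hD).1
  have hS0 : ∀ D ∈ S, D ≠ 0 := by
    obtain ⟨p, hp, _, h⟩ := hS
    exact fun D hD => ne_zero_of_exc hp (h hD)
  obtain ⟨f, hf⟩ := exists_pos (eff P) T.salient
  have hfD : ∀ D ∈ S, 0 < f D := fun D hD =>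
    hf D (subset_closure (Submodule.subset_span (hSP D hD))) (hS0 D hD)
  let Ψ : (S → ℝ) → V := fun t => ∑ D : S, t D • (D : V)
  have hΨc : Continuous Ψ := by fun_prop
  have hΨadd : ∀ t u, Ψ (t + u) = Ψ t + Ψ u := fun t u => by
    simp only [Ψ, Pi.add_apply, add_smul, Finset.sum_add_distrib]
  have hΨsmul : ∀ (c : ℝ) t, Ψ (c • t) = c • Ψ t := fun c t => by
    simp only [Ψ, Pi.smul_apply, smul_eq_mul, Finset.smul_sum, smul_smul]
  have hΨhull : ∀ t : S → ℝ, (∀ D, 0 ≤ t D) → Ψ t ∈ PointedCone.hull ℝ (S : Set V) := fun t ht =>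
    Submodule.sum_mem _ fun D _ => PointedCone.smul_mem _ (ht D) (Submodule.subset_span D.2)
  -- the compact set of directions
  let B : Set (S → ℝ) := {t | (∀ D, 0 ≤ t D) ∧ ∑ D, t D = 1}
  have hBc : IsCompact B := by
    have h1 : B ⊆ Set.pi univ fun _ => Icc (0 : ℝ) 1 := by
      intro t ht D _
      refine ⟨ht.1 D, ?_⟩
      rw [← ht.2]
      exact Finset.single_le_sum (fun E _ => ht.1 E) (Finset.mem_univ D)
    refine (isCompact_univ_pi fun _ => isCompact_Icc).of_isClosed_subset ?_ h1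
    have h2 : B = (⋂ D, {t : S → ℝ | 0 ≤ t D}) ∩ {t | ∑ D, t D = 1} := by
      ext t
      simp only [B, mem_ofPred_eq, mem_inter_iff, mem_iInter]
    rw [h2]
    exact (isClosed_iInter fun D => isClosed_le continuous_const (continuous_apply D)).inter
      (isClosed_eq (by fun_prop) continuous_const)
  have hdisj : Disjoint (Ψ '' B) (M : Set V) := by
    rw [Set.disjoint_left]
    rintro _ ⟨t, ht, rfl⟩ hM
    have h1 : Ψ t = 0 := by
      refine T.span_inf hS hM ?_
      exact Submodule.sum_mem _ fun D _ => Submodule.smul_mem _ _ (Submodule.subset_span D.2)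
    have h2 : f (Ψ t) = ∑ D : S, t D * f D := by
      simp only [Ψ, map_sum, map_smul, smul_eq_mul]
    rw [h1, map_zero] at h2
    have h3 : ∀ D : S, t D * f D = 0 := by
      intro D
      have h4 := (Finset.sum_eq_zero_iff_of_nonneg (fun (E : S) _ =>
        mul_nonneg (ht.1 E) (hfD E E.2).le)).1 h2.symm
      exact h4 D (Finset.mem_univ D)
    have h4 : ∀ D : S, t D = 0 := fun D =>
      (mul_eq_zero.1 (h3 D)).resolve_right (hfD D D.2).ne'
    have h5 := ht.2
    simp only [h4, Finset.sum_const_zero] at h5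
    exact zero_ne_one h5
  obtain ⟨δ, hδ, hδdisj⟩ := hdisj.exists_thickenings (hBc.image hΨc) T.closed
  -- the set of the admissible coefficients
  let C : Set (S → ℝ) := {t | (∀ D, 0 ≤ t D) ∧ q + Ψ t ∈ M}
  have hbound : ∀ t ∈ C, ∑ D, t D ≤ ‖q‖ / δ := by
    intro t ht
    by_contra hlt
    push Not at hlt
    set σ : ℝ := ∑ D, t D with hσ
    have hσ0 : 0 < σ := lt_of_le_of_lt (by positivity) hlt
    have h1 : σ⁻¹ • t ∈ B := by
      refine ⟨fun D => ?_, ?_⟩
      · rw [Pi.smul_apply, smul_eq_mul]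
        exact mul_nonneg (inv_nonneg.2 hσ0.le) (ht.1 D)
      · simp only [Pi.smul_apply, smul_eq_mul, ← Finset.mul_sum]
        rw [← hσ, inv_mul_cancel₀ hσ0.ne']
    have h2 : σ⁻¹ • (q + Ψ t) ∈ M := PointedCone.smul_mem M (inv_nonneg.2 hσ0.le) ht.2
    have h3 : dist (σ⁻¹ • (q + Ψ t)) (Ψ (σ⁻¹ • t)) < δ := by
      rw [hΨsmul, smul_add, dist_eq_norm, add_sub_cancel_right, norm_smul, norm_inv,
        Real.norm_of_nonneg hσ0.le, inv_mul_lt_iff₀ hσ0]
      rwa [div_lt_iff₀ hδ] at hlt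
    have h4 : σ⁻¹ • (q + Ψ t) ∈ Metric.thickening δ (Ψ '' B) := by
      rw [Metric.mem_thickening_iff]
      exact ⟨Ψ (σ⁻¹ • t), ⟨_, h1, rfl⟩, h3⟩
    exact Set.disjoint_left.1 hδdisj h4 (Metric.self_subset_thickening hδ _ h2)
  have hCc : IsCompact C := by
    have h1 : C ⊆ Set.pi univ fun _ => Icc (0 : ℝ) (‖q‖ / δ) := by
      intro t ht D _
      refine ⟨ht.1 D, ?_⟩
      exact (Finset.single_le_sum (fun E _ => ht.1 E) (Finset.mem_univ D)).trans (hbound t ht)
    refine (isCompact_univ_pi fun _ => isCompact_Icc).of_isClosed_subset ?_ h1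
    have h2 : C = (⋂ D, {t : S → ℝ | 0 ≤ t D}) ∩ ((fun t => q + Ψ t) ⁻¹' (M : Set V)) := by
      ext t
      simp only [C, mem_ofPred_eq, mem_inter_iff, mem_iInter, mem_preimage, SetLike.mem_coe]
    rw [h2]
    exact (isClosed_iInter fun D => isClosed_le continuous_const (continuous_apply D)).inter
      (T.closed.preimage (by fun_prop))
  have hCne : C.Nonempty := ⟨0, fun D => le_rfl, by simpa [Ψ] using hq⟩
  obtain ⟨t, ht, hmax⟩ := hCc.exists_isMaxOn hCne
    (f := fun t => ∑ D, t D) (Continuous.continuousOn (by fun_prop))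
  refine ⟨q + Ψ t, ht.2, ?_, ?_⟩
  · rw [add_sub_cancel_left]
    exact hΨhull t ht.1
  · intro D hD
    refine ⟨hSP D hD, fun ε hε h => ?_⟩
    let u : S → ℝ := t + ε • Pi.single (⟨D, hD⟩ : S) (1 : ℝ)
    have h1 : u ∈ C := by
      refine ⟨fun E => ?_, ?_⟩
      · simp only [u, Pi.add_apply, Pi.smul_apply, smul_eq_mul]
        refine add_nonneg (ht.1 E) (mul_nonneg hε.le ?_)
        rw [Pi.single_apply]
        split_ifs <;> norm_num
      · have h2 : Ψ (Pi.single (⟨D, hD⟩ : S) (1 : ℝ)) = D := by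
          simp only [Ψ]
          rw [Finset.sum_eq_single (⟨D, hD⟩ : S)]
          · simp
          · intro E _ hE
            rw [Pi.single_eq_of_ne hE, zero_smul]
          · simp
        show q + Ψ (t + ε • Pi.single (⟨D, hD⟩ : S) (1 : ℝ)) ∈ M
        rw [hΨadd, hΨsmul, h2, ← add_assoc]
        exact h
    have h2 : ∑ E, u E ≤ ∑ E, t E := hmax h1
    have h3 : ∑ E, u E = ∑ E, t E + ε := by
      simp only [u, Pi.add_apply, Pi.smul_apply, smul_eq_mul, Finset.sum_add_distrib,
        ← Finset.mul_sum, Finset.sum_pi_single', Finset.mem_univ, if_true, mul_one]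
    rw [h3] at h2
    linarith

end Pool.Agent.Lib.Pad47bbD
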