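import Pool.Agent.Lib.Pad47bbD.Defs

/-!
The movable cone of a set of classes of prime divisors.

Dictionary. `X` is a `ℚ`-factorial projective variety of dimension at least two, `P` the set of the
classes of the prime divisors. The movable classes are those which are limits of effective classes
without the component `D`, for every prime divisor `D`.
-/

open Set Topology

namespace Pool.Agent.Lib.Pad47bbD

open Pool.Agent.Lib.Pad47bb Pool.Agent.Lib.Pad47bbQ Pool.Agent.Lib.Pad47bbM

variable {V : Type*} [NormedAddCommGroup V] [NormedSpace ℝ V]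

/-- The movable cone of a set `P`: the points of the closure of the cone generated by `P` which for
every `D ∈ P` lie in the closure of the cone generated by `P \ {D}`. -/
def mov (P : Set V) : PointedCone ℝ V :=
  PointedCone.closure (eff P) ⊓ ⨅ D ∈ P, PointedCone.closure (PointedCone.hull ℝ (P \ {D}))

theorem mem_mov {P : Set V} {x : V} : x ∈ mov P ↔ x ∈ closure (eff P : Set V) ∧
    ∀ D ∈ P, x ∈ closure (PointedCone.hull ℝ (P \ {D}) : Set V) := by
  simp only [mov, Submodule.mem_inf, Submodule.mem_iInf]
  rfl

/-- A lattice `L`, a set `P` of lattice vectors and a group `Γ` of automorphisms of the lattice which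
permutes `P`; the closure of the cone generated by `P` contains no line, and `mov P` has interior
points. -/
structure PrimeData (L : Submodule ℤ V) (P : Set V) (Γ : Subgroup (V ≃ₗ[ℝ] V)) : Prop where
  prime_lattice : P ⊆ (L : Set V)
  salient : ∀ x ∈ closure (eff P : Set V), -x ∈ closure (eff P : Set V) → x = 0
  interior_nonempty : (interior (mov P : Set V)).Nonempty
  map_lattice : ∀ g ∈ Γ, ∀ x ∈ L, g x ∈ L
  map_prime : ∀ g ∈ Γ, ∀ D ∈ P, g D ∈ P

theorem isClosed_mov (P : Set V) : IsClosed (mov P : Set V) := by
  have h : (mov P : Set V) = closure (eff P : Set V) ∩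
      ⋂ D ∈ P, closure (PointedCone.hull ℝ (P \ {D}) : Set V) := by
    ext x
    rw [SetLike.mem_coe, mem_mov]
    simp
  rw [h]
  exact isClosed_closure.inter (isClosed_biInter fun D _ => isClosed_closure)

/-- the closed movable cone is closed under joins -/
theorem mov_join {P : Set V} {x D z : V} {a : ℝ} (hD : D ∈ P) (ha : 0 ≤ a)
    (hz : z ∈ PointedCone.hull ℝ (P \ {D})) (h1 : x + a • D ∈ mov P) (h2 : x + z ∈ mov P) :
    x + a • D + z ∈ mov P := by
  have hzE : z ∈ eff P := Submodule.span_mono sdiff_subset hz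
  refine mem_mov.2 ⟨?_, fun D' hD' => ?_⟩
  · exact (PointedCone.closure (eff P)).add_mem (mem_mov.1 h1).1 (subset_closure hzE)
  · by_cases h : D' = D
    · subst h
      exact (PointedCone.closure (PointedCone.hull ℝ (P \ {D'}))).add_mem ((mem_mov.1 h1).2 D' hD')
        (subset_closure hz)
    · have h3 : D ∈ PointedCone.hull ℝ (P \ {D'}) :=
        Submodule.subset_span ⟨hD, fun h' => h h'.symm⟩
      have h4 : x + a • D + z = x + z + a • D := by abel
      rw [h4]
      exact (PointedCone.closure (PointedCone.hull ℝ (P \ {D'}))).add_mem ((mem_mov.1 h2).2 D' hD')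
        (subset_closure (PointedCone.smul_mem _ ha h3))

variable [FiniteDimensional ℝ V]

theorem map_closure_hull {A B : Set V} {g : V ≃ₗ[ℝ] V} (h : ∀ x ∈ A, g x ∈ B) {x : V}
    (hx : x ∈ closure (PointedCone.hull ℝ A : Set V)) :
    g x ∈ closure (PointedCone.hull ℝ B : Set V) := by
  have h1 : g x ∈ closure ((g : V → V) '' (PointedCone.hull ℝ A : Set V)) :=
    image_closure_subset_closure_image g.toContinuousLinearEquiv.continuous ⟨x, hx, rfl⟩
  refine closure_mono ?_ h1
  rintro _ ⟨y, hy, rfl⟩
  have h2 : imageCone g (PointedCone.hull ℝ A) ≤ PointedCone.hull ℝ B := by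
    have h3 : imageCone g (PointedCone.hull ℝ A) = PointedCone.hull ℝ ((g : V → V) '' A) :=
      Submodule.map_span _ _
    rw [h3]
    refine Submodule.span_mono ?_
    rintro _ ⟨z, hz, rfl⟩
    exact h z hz
  exact h2 ⟨y, hy, rfl⟩

variable {L : Submodule ℤ V} {P : Set V} {Γ : Subgroup (V ≃ₗ[ℝ] V)}

theorem PrimeData.divData (T : PrimeData L P Γ) : DivData L P (mov P) Γ where
  prime_lattice := T.prime_lattice
  closed := isClosed_mov P
  interior_nonempty := T.interior_nonempty
  mov_subset := fun _ hx => (mem_mov.1 hx).1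
  salient := T.salient
  join := fun _ _ _ _ hD ha hz h1 h2 => mov_join hD ha hz h1 h2
  map_lattice := T.map_lattice
  map_prime := T.map_prime
  map_mov := by
    intro g hg x hx
    obtain ⟨h1, h2⟩ := mem_mov.1 hx
    refine mem_mov.2 ⟨map_closure_hull (T.map_prime g hg) h1, fun D hD => ?_⟩
    have hgD : g⁻¹ D ∈ P := T.map_prime _ (inv_mem hg) D hD
    have h4 : ∀ y ∈ P \ {g⁻¹ D}, g y ∈ P \ {D} := by
      rintro y ⟨hy, hyD⟩
      refine ⟨T.map_prime g hg y hy, fun h => hyD ?_⟩
      have h3 : g y = D := h
      show y = g⁻¹ D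
      rw [← h3]
      exact (g.symm_apply_apply y).symm
    exact map_closure_hull h4 (h2 _ hgD)

end Pool.Agent.Lib.Pad47bbD
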