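import Pool.Agent.Lib.Pad47bbD.Fam
import Pool.Agent.Lib.Pad47bbD.Descent

/-!
Birational contractions: the primes of the target are the images of the primes which are not
contracted, and its effective movable cone is the image of the effective movable cone.
-/

open Set Topology

namespace Pool.Agent.Lib.Pad47bbD

open Pool.Agent.Lib.Pad47bb Pool.Agent.Lib.Pad47bbQ Pool.Agent.Lib.Pad47bbM

variable {V : Type*} [NormedAddCommGroup V] [NormedSpace ℝ V]
  {U : Type*} [NormedAddCommGroup U] [NormedSpace ℝ U] {ι : Type*}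

/-- The classes of the primes of the target of a contraction of the primes in `S`. -/
def push (f : ι → V) (S : Finset ι) (π : V →ₗ[ℝ] U) : {i // i ∉ S} → U := fun i => π (f i)

theorem map_hull_mem {A : Set V} {C : PointedCone ℝ U} {π : V →ₗ[ℝ] U} (h : ∀ x ∈ A, π x ∈ C)
    {x : V} (hx : x ∈ PointedCone.hull ℝ A) : π x ∈ C := by
  induction hx using Submodule.span_induction with
  | mem x hx => exact h x hx
  | zero => rw [map_zero]; exact C.zero_mem
  | add x y _ _ hx hy => rw [map_add]; exact C.add_mem hx hy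
  | smul c x _ hx =>
    have h1 : π (c • x) = (c : ℝ) • π x := map_smul π (c : ℝ) x
    rw [h1]
    exact PointedCone.smul_mem C c.2 hx

variable [FiniteDimensional ℝ V]

theorem map_closure_mem {A : Set V} {C : PointedCone ℝ U} {π : V →ₗ[ℝ] U} (h : ∀ x ∈ A, π x ∈ C)
    {x : V} (hx : x ∈ closure (PointedCone.hull ℝ A : Set V)) : π x ∈ closure (C : Set U) := by
  have hπc : Continuous π := LinearMap.continuous_of_finiteDimensional π
  have h1 : π x ∈ closure (π '' (PointedCone.hull ℝ A : Set V)) :=
    image_closure_subset_closure_image hπc ⟨x, hx, rfl⟩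
  refine closure_mono ?_ h1
  rintro _ ⟨y, hy, rfl⟩
  exact map_hull_mem h hy

theorem map_movF_mem {f : ι → V} {S : Finset ι} {π : V →ₗ[ℝ] U} (hS : ∀ i ∈ S, π (f i) = 0)
    {x : V} (hx : x ∈ movF f) : π x ∈ movF (push f S π) := by
  obtain ⟨h1, h2⟩ := mem_movF.1 hx
  refine mem_movF.2 ⟨map_closure_mem ?_ h1, fun i => map_closure_mem ?_ (h2 i)⟩
  · rintro _ ⟨k, rfl⟩
    by_cases hk : k ∈ S
    · rw [hS k hk]
      exact Submodule.zero_mem _
    · exact Submodule.subset_span ⟨⟨k, hk⟩, rfl⟩
  · rintro _ ⟨k, hki, rfl⟩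
    by_cases hk : k ∈ S
    · rw [hS k hk]
      exact Submodule.zero_mem _
    · refine Submodule.subset_span ⟨⟨k, hk⟩, fun h => hki ?_, rfl⟩
      exact congrArg Subtype.val (mem_singleton_iff.1 h)

/-- The interior of the closure of a convex cone is contained in the cone. -/
theorem mem_of_interior_closure {C : PointedCone ℝ V} {u : V}
    (h : u ∈ interior (closure (C : Set V))) : u ∈ C := by
  have hconv : Convex ℝ (C : Set V) := PointedCone.convex C
  have h2 : affineSpan ℝ (closure (C : Set V)) = ⊤ :=
    (hconv.closure.interior_nonempty_iff_affineSpan_eq_top).1 ⟨u, h⟩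
  have h3 : closure (C : Set V) ⊆ (affineSpan ℝ (C : Set V) : Set V) :=
    closure_minimal (subset_affineSpan ℝ _)
      (AffineSubspace.closed_of_finiteDimensional _)
  have h4 : affineSpan ℝ (C : Set V) = ⊤ := by
    rw [eq_top_iff, ← h2]
    exact affineSpan_le.2 h3
  have h5 := (hconv.interior_nonempty_iff_affineSpan_eq_top).2 h4
  rw [hconv.interior_closure_eq_interior_of_nonempty_interior h5] at h
  exact interior_subset h

variable {L : Submodule ℤ V} {f : ι → V} {Γ : Subgroup (V ≃ₗ[ℝ] V)} [FiniteDimensional ℝ U]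

/-- The main step: `a` is an effective divisor without components in `S` whose image is movable,
`b` is an effective divisor whose class is an interior point of the movable cone. -/
theorem push_core {S : Finset ι} {π : V →ₗ[ℝ] U} (hsurj : Function.Surjective π)
    (hker : ∀ x, π x = 0 ↔ x ∈ Submodule.span ℝ (f '' (S : Set ι))) {a b c : ι →₀ ℝ}
    (ha0 : ∀ i, 0 ≤ a i) (haS : ∀ i ∈ S, a i = 0) (hb0 : ∀ i, 0 ≤ b i)
    (hcS : ∀ k ∈ S, c k = b k) (hcS' : ∀ k, k ∉ S → c k = 0)
    (hb : Finsupp.linearCombination ℝ f b ∈ interior (movF f : Set V))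
    (hy : π (Finsupp.linearCombination ℝ f a) ∈ movF (push f S π)) :
    ∃ q ∈ movF f, ∃ h ∈ PointedCone.hull ℝ (f '' (S : Set ι)),
      q - h = Finsupp.linearCombination ℝ f a +
        (2 : ℝ) • Finsupp.linearCombination ℝ f b - Finsupp.linearCombination ℝ f c := by
  classical
  have hS0 : ∀ i ∈ S, π (f i) = 0 := fun i hi => (hker _).2 (Submodule.subset_span ⟨i, hi, rfl⟩)
  have hint : π (Finsupp.linearCombination ℝ f b) ∈ interior (movF (push f S π) : Set U) := by
    rw [mem_interior]
    refine ⟨π '' interior (movF f : Set V), ?_,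
      (LinearMap.isOpenMap_of_finiteDimensional π hsurj) _ isOpen_interior, ⟨_, hb, rfl⟩⟩
    rintro _ ⟨x, hx, rfl⟩
    exact map_movF_mem hS0 (interior_subset hx)
  -- representatives without the component `i`
  have hl : ∀ i, i ∉ S → ∃ l : ι →₀ ℝ, (∀ k, 0 ≤ l k) ∧ (∀ k, k ∈ S ∨ k = i → l k = 0) ∧
      ∃ u : ι →₀ ℝ, (∀ k, k ∉ S → u k = 0) ∧
        Finsupp.linearCombination ℝ f a + Finsupp.linearCombination ℝ f b =
          Finsupp.linearCombination ℝ f l + Finsupp.linearCombination ℝ f u := by
    intro i hi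
    have h1 : π (Finsupp.linearCombination ℝ f b) + π (Finsupp.linearCombination ℝ f a) ∈
        interior (closure (PointedCone.hull ℝ (push f S π '' {⟨i, hi⟩}ᶜ) : Set U)) := by
      have h2 : π (Finsupp.linearCombination ℝ f b) ∈ interior
          ((PointedCone.closure (PointedCone.hull ℝ (push f S π '' {⟨i, hi⟩}ᶜ)) :
            PointedCone ℝ U) : Set U) :=
        interior_mono (fun u hu => (mem_movF.1 hu).2 ⟨i, hi⟩) hint
      exact interior_add_mem h2 ((mem_movF.1 hy).2 ⟨i, hi⟩)
    have h2 := mem_of_interior_closure h1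
    have h3 : push f S π '' {⟨i, hi⟩}ᶜ = π '' (f '' {k | k ∉ S ∧ k ≠ i}) := by
      ext u
      constructor
      · rintro ⟨⟨k, hk⟩, hki, rfl⟩
        exact ⟨f k, ⟨k, ⟨hk, fun h => hki (by subst h; rfl)⟩, rfl⟩, rfl⟩
      · rintro ⟨_, ⟨k, ⟨hk, hki⟩, rfl⟩, rfl⟩
        exact ⟨⟨k, hk⟩, fun h => hki (congrArg Subtype.val (mem_singleton_iff.1 h)), rfl⟩
    have h4 : PointedCone.hull ℝ (π '' (f '' {k | k ∉ S ∧ k ≠ i})) =
        PointedCone.map π (PointedCone.hull ℝ (f '' {k | k ∉ S ∧ k ≠ i})) := by
      symm
      exact Submodule.map_span _ _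
    rw [h3, h4] at h2
    obtain ⟨z, hz, hzu⟩ := h2
    have hzu' : π z = π (Finsupp.linearCombination ℝ f b) +
      π (Finsupp.linearCombination ℝ f a) := hzu
    obtain ⟨l, hl0, hlA, rfl⟩ := exists_finsupp hz
    have h5 : Finsupp.linearCombination ℝ f a + Finsupp.linearCombination ℝ f b -
        Finsupp.linearCombination ℝ f l ∈ Submodule.span ℝ (f '' (S : Set ι)) := by
      rw [← hker, map_sub, map_add, hzu']
      abel
    rw [Finsupp.mem_span_image_iff_linearCombination] at h5
    obtain ⟨u, hu, huv⟩ := h5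
    refine ⟨l, hl0, fun k hk => hlA k ?_, u, fun k hk => ?_, ?_⟩
    · rintro ⟨h6, h7⟩
      rcases hk with h | h
      · exact h6 h
      · exact h7 h
    · by_contra h
      exact hk (hu (Finsupp.mem_support_iff.2 h))
    · rw [huv]
      abel
  choose! l hl0 hlS u huS hlu using hl
  set T₀ : Finset ι := (a.support ∪ b.support) \ S with hT₀
  set t : ℝ := ∑ i ∈ T₀, ∑ s ∈ S, |u i s| with ht
  have ht0 : 0 ≤ t := Finset.sum_nonneg fun i _ => Finset.sum_nonneg fun s _ => abs_nonneg _
  have htu : ∀ i ∈ T₀, ∀ s ∈ S, 0 ≤ u i s + t := by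
    intro i hi s hs
    have h1 : |u i s| ≤ t :=
      (Finset.single_le_sum (f := fun s => |u i s|) (fun _ _ => abs_nonneg _) hs).trans
        (Finset.single_le_sum (f := fun i => ∑ s ∈ S, |u i s|)
          (fun _ _ => Finset.sum_nonneg fun _ _ => abs_nonneg _) hi)
    have h2 := neg_abs_le (u i s)
    linarith
  set w : ι →₀ ℝ := Finsupp.indicator S fun _ _ => t with hw
  have hwS : ∀ k ∈ S, w k = t := fun k hk => by rw [hw, Finsupp.indicator_of_mem hk]
  have hwS' : ∀ k, k ∉ S → w k = 0 := fun k hk => by rw [hw, Finsupp.indicator_of_notMem hk]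
  have hT₀S : ∀ i ∈ T₀, i ∉ S := fun i hi => (Finset.mem_sdiff.1 hi).2
  set x : V := Finsupp.linearCombination ℝ f a + (2 : ℝ) • Finsupp.linearCombination ℝ f b +
    Finsupp.linearCombination ℝ f w with hx
  have hind : ∀ T : Finset ι, T ⊆ T₀ → ∃ n : ι →₀ ℝ, (∀ k, 0 ≤ n k) ∧
      (∀ k, n k ≤ a k + b k + w k) ∧ (∀ i ∈ T, n i = 0) ∧
        x - Finsupp.linearCombination ℝ f n ∈ movF f := by
    intro T
    induction T using Finset.induction_on with
    | empty =>
      intro _
      refine ⟨a + b + w, fun k => ?_, fun k => le_rfl, fun i hi => absurd hi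
        (Finset.notMem_empty i), ?_⟩
      · rw [Finsupp.add_apply, Finsupp.add_apply]
        have h1 : 0 ≤ w k := by
          by_cases hk : k ∈ S
          · rw [hwS k hk]; exact ht0
          · rw [hwS' k hk]
        have := ha0 k
        have := hb0 k
        linarith
      · have h1 : x - Finsupp.linearCombination ℝ f (a + b + w) =
            Finsupp.linearCombination ℝ f b := by
          rw [hx, map_add, map_add, two_smul]
          abel
        rw [h1]
        exact interior_subset hb
    | insert i T hiT ih =>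
      intro hT
      obtain ⟨n, hn0, hnle, hnT, hnx⟩ := ih ((Finset.subset_insert i T).trans hT)
      have hi : i ∈ T₀ := hT (Finset.mem_insert_self i T)
      have hiS := hT₀S i hi
      have hR0 : ∀ k, 0 ≤ (l i + u i + w) k := by
        intro k
        rw [Finsupp.add_apply, Finsupp.add_apply]
        by_cases hk : k ∈ S
        · have h1 := htu i hi k hk
          have h2 := hl0 i hiS k
          rw [hwS k hk]
          linarith
        · rw [huS i hiS k hk, hwS' k hk]
          have := hl0 i hiS k
          linarith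
      have hRx : x - Finsupp.linearCombination ℝ f (l i + u i + w) ∈ movF f := by
        have h1 : x - Finsupp.linearCombination ℝ f (l i + u i + w) =
            Finsupp.linearCombination ℝ f b := by
          have h2 := hlu i hiS
          rw [hx, map_add, map_add, ← h2, two_smul]
          abel
        rw [h1]
        exact interior_subset hb
      refine ⟨n ⊓ (l i + u i + w), fun k => ?_, fun k => ?_, fun j hj => ?_, movF_inf hnx hRx⟩
      · rw [Finsupp.inf_apply]
        exact le_inf (hn0 k) (hR0 k)
      · rw [Finsupp.inf_apply]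
        exact inf_le_left.trans (hnle k)
      · rw [Finsupp.inf_apply]
        rcases Finset.mem_insert.1 hj with rfl | hj
        · have h1 : (l j + u j + w) j = 0 := by
            rw [Finsupp.add_apply, Finsupp.add_apply, hlS j hiS j (Or.inr rfl), huS j hiS j hiS,
              hwS' j hiS]
            ring
          rw [h1]
          exact inf_eq_right.2 (hn0 j)
        · rw [hnT j hj]
          exact inf_eq_left.2 (hR0 j)
  obtain ⟨n, hn0, hnle, hnT, hnx⟩ := hind T₀ Finset.Subset.rfl
  have hnS : ∀ k, k ∉ S → n k = 0 := by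
    intro k hk
    by_cases hkT : k ∈ T₀
    · exact hnT k hkT
    · have h1 : k ∉ a.support ∪ b.support := fun h => hkT (Finset.mem_sdiff.2 ⟨h, hk⟩)
      rw [Finset.mem_union, not_or, Finsupp.notMem_support_iff, Finsupp.notMem_support_iff] at h1
      have h2 := hnle k
      rw [h1.1, h1.2, hwS' k hk] at h2
      have := hn0 k
      linarith
  refine ⟨_, hnx, Finsupp.linearCombination ℝ f (w + c - n), ?_, ?_⟩
  · refine lc_mem (fun k => ?_) fun k hk => ?_
    · rw [Finsupp.sub_apply, Finsupp.add_apply]
      by_cases hk : k ∈ S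
      · rw [hcS k hk]
        have h1 := hnle k
        rw [haS k hk] at h1
        linarith
      · rw [hcS' k hk, hwS' k hk, hnS k hk]
        norm_num
    · have hk' : k ∉ S := hk
      rw [Finsupp.sub_apply, Finsupp.add_apply, hcS' k hk', hwS' k hk', hnS k hk']
      norm_num
  · have h1 : Finsupp.linearCombination ℝ f (w + c - n) = Finsupp.linearCombination ℝ f w +
        Finsupp.linearCombination ℝ f c - Finsupp.linearCombination ℝ f n := by
      rw [map_sub, map_add]
    rw [h1, hx]
    abel

/-- **The effective movable cone of the target.** -/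
theorem FamData.map_eq (T : FamData L f Γ) {S : Finset ι} (hS : ContractibleF f S)
    {π : V →ₗ[ℝ] U} (hsurj : Function.Surjective π)
    (hker : ∀ x, π x = 0 ↔ x ∈ Submodule.span ℝ (f '' (S : Set ι))) :
    PointedCone.map π (movF f ⊓ eff (range f)) =
      movF (push f S π) ⊓ eff (range (push f S π)) := by
  classical
  have hS0 : ∀ i ∈ S, π (f i) = 0 := fun i hi => (hker _).2 (Submodule.subset_span ⟨i, hi, rfl⟩)
  apply le_antisymm
  · rintro _ ⟨x, ⟨hx1, hx2⟩, rfl⟩
    refine ⟨map_movF_mem hS0 hx1, map_hull_mem (A := range f) ?_ hx2⟩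
    rintro _ ⟨k, rfl⟩
    by_cases hk : k ∈ S
    · rw [hS0 k hk]
      exact Submodule.zero_mem _
    · exact Submodule.subset_span ⟨⟨k, hk⟩, rfl⟩
  · rintro y ⟨hyM, hyE⟩
    -- an effective class over `y` without components in `S`
    have h1 : range (push f S π) = π '' (f '' (S : Set ι)ᶜ) := by
      ext v
      constructor
      · rintro ⟨⟨k, hk⟩, rfl⟩
        exact ⟨f k, ⟨k, hk, rfl⟩, rfl⟩
      · rintro ⟨_, ⟨k, hk, rfl⟩, rfl⟩
        exact ⟨⟨k, hk⟩, rfl⟩
    have h2 : PointedCone.hull ℝ (π '' (f '' (S : Set ι)ᶜ)) =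
        PointedCone.map π (PointedCone.hull ℝ (f '' (S : Set ι)ᶜ)) := by
      symm
      exact Submodule.map_span _ _
    have hyE' : y ∈ PointedCone.map π (PointedCone.hull ℝ (f '' (S : Set ι)ᶜ)) := by
      rw [← h2, ← h1]
      exact hyE
    obtain ⟨x₀, hx₀, hx₀y⟩ := hyE'
    have hx₀y' : π x₀ = y := hx₀y
    obtain ⟨a, ha0, haS, rfl⟩ := exists_finsupp hx₀
    have haS' : ∀ i ∈ S, a i = 0 := fun i hi => haS i fun h => h hi
    -- an interior point of the movable cone
    obtain ⟨e, he⟩ := T.interior_nonempty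
    have heE : e ∈ PointedCone.hull ℝ (f '' univ) := by
      rw [image_univ]
      exact interior_subset (T.divData.data.intN_subset he)
    obtain ⟨b, hb0, -, rfl⟩ := exists_finsupp heE
    -- a closed cone
    have hspan : ∀ h ∈ PointedCone.hull ℝ (f '' (S : Set ι)),
        h ∈ Submodule.span ℝ (f '' (S : Set ι)) := by
      intro h hh
      obtain ⟨n, -, hnS, rfl⟩ := exists_finsupp hh
      rw [Finsupp.mem_span_image_iff_linearCombination]
      refine ⟨n, ?_, rfl⟩
      intro k hk
      by_contra h
      exact (Finsupp.mem_support_iff.1 hk) (hnS k h)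
    obtain ⟨φ, hφ⟩ := exists_pos (eff (range f)) T.salient
    have himg : ((S.image f : Finset V) : Set V) = f '' (S : Set ι) := Finset.coe_image
    have hScl : IsClosed (PointedCone.hull ℝ (f '' (S : Set ι)) : Set V) := by
      rw [← himg]
      refine isClosed_hull φ hφ (S.image f) ?_
      rw [himg]
      exact (image_subset_range f _).trans Submodule.subset_span
    let Q : PointedCone ℝ (V × V) := (movF f).prod (PointedCone.hull ℝ (f '' (S : Set ι)))
    have hQ : IsClosed (Q : Set (V × V)) := (isClosed_movF f).prod hScl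
    have hC : IsClosed ((LinearMap.fst ℝ V V - LinearMap.snd ℝ V V : V × V →ₗ[ℝ] V) ''
        (Q : Set (V × V))) := by
      refine isClosed_image hQ _ ?_
      rintro ⟨q, h⟩ ⟨hq, hh⟩ h0
      have h3 : q = h := sub_eq_zero.1 h0
      have h4 : q = 0 := by
        refine T.divData.span_inf hS.contractible hq ?_
        rw [himg, h3]
        exact hspan h hh
      rw [← h3, h4]
      rfl
    have hmem : Finsupp.linearCombination ℝ f a ∈
        ((LinearMap.fst ℝ V V - LinearMap.snd ℝ V V : V × V →ₗ[ℝ] V) '' (Q : Set (V × V))) := by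
      rw [← hC.closure_eq, mem_closure_iff_frequently]
      refine (tendsto_add_smul (Finsupp.linearCombination ℝ f a)
        ((2 : ℝ) • Finsupp.linearCombination ℝ f b -
          Finsupp.linearCombination ℝ f (b.filter (· ∈ S)))).frequently
        (p := fun y => y ∈ ((LinearMap.fst ℝ V V - LinearMap.snd ℝ V V : V × V →ₗ[ℝ] V) ''
          (Q : Set (V × V)))) (Filter.Frequently.of_forall ?_)
      intro n
      set ε : ℝ := 1 / ((n : ℝ) + 1) with hε
      have hε0 : 0 < ε := by positivity
      obtain ⟨q, hq, h, hh, hqh⟩ := push_core (a := a) (b := ε • b)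
        (c := ε • b.filter (· ∈ S)) hsurj hker ha0 haS'
        (fun i => mul_nonneg hε0.le (hb0 i)) (fun k hk => by
          rw [Finsupp.smul_apply, Finsupp.smul_apply, Finsupp.filter_apply_pos (· ∈ S) b hk])
        (fun k hk => by
          rw [Finsupp.smul_apply, Finsupp.filter_apply_neg (· ∈ S) b hk, smul_zero]) (by
          rw [map_smul]
          exact interior_smul_mem he hε0) (by
          rw [hx₀y']
          exact hyM)
      refine ⟨(q, h), ⟨hq, hh⟩, ?_⟩
      show q - h = _
      rw [hqh, map_smul, map_smul, smul_sub, smul_comm ε (2 : ℝ), add_sub_assoc]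
    obtain ⟨⟨q, h⟩, ⟨hq, hh⟩, hqh⟩ := hmem
    have hqh' : q - h = Finsupp.linearCombination ℝ f a := hqh
    have hq' : q = Finsupp.linearCombination ℝ f a + h := by rw [← hqh']; abel
    refine ⟨q, ⟨hq, ?_⟩, ?_⟩
    · show q ∈ eff (range f)
      rw [hq']
      refine Submodule.add_mem _ (Submodule.span_mono (image_subset_range f _) hx₀)
        (Submodule.span_mono (image_subset_range f _) hh)
    · show π q = y
      rw [hq', map_add, (hker h).2 (hspan h hh), add_zero, hx₀y']

variable {L' : Submodule ℤ U} {Γ' : Subgroup (U ≃ₗ[ℝ] U)} [DiscreteTopology L'] [IsZLattice ℝ L']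

/-- **Birational descent of the movable cone conjecture.** -/
theorem FamData.descent (T : FamData L f Γ) {S : Finset ι} (hS : ContractibleF f S)
    {π : V →ₗ[ℝ] U} (hsurj : Function.Surjective π)
    (hker : ∀ x, π x = 0 ↔ x ∈ Submodule.span ℝ (f '' (S : Set ι)))
    (hlat : ∀ x ∈ L, π x ∈ L') (T' : FamData L' (push f S π) Γ')
    (hind : ∀ g ∈ Γ, g '' (f '' (S : Set ι)) = f '' (S : Set ι) →
      ∃ h ∈ Γ', ∀ x, h (π x) = π (g x))
    (h : HasRPFD L Γ (movF f ⊓ eff (range f))) :
    HasRPFD L' Γ' (movF (push f S π) ⊓ eff (range (push f S π))) := by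
  classical
  have himg : ((S.image f : Finset V) : Set V) = f '' (S : Set ι) := Finset.coe_image
  have hmap := T.map_eq hS hsurj hker
  rw [← hmap]
  refine T.divData.descent h (S := S.image f) hS.contractible ⟨hsurj, ?_, hlat, T'.map_lattice,
    ?_, ?_⟩
  · intro x
    rw [himg]
    exact hker x
  · intro g hg u hu
    rw [hmap] at hu ⊢
    exact ⟨T'.divData.map_mov g hg u hu.1, T'.divData.map_eff hg hu.2⟩
  · intro g hg hgS
    refine hind g hg ?_
    have h1 : (S.image f).image g ⊆ S.image f := by
      intro D hD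
      obtain ⟨D', hD', rfl⟩ := Finset.mem_image.1 hD
      exact hgS D' hD'
    have h2 : (S.image f).image g = S.image f := by
      refine Finset.eq_of_subset_of_card_le h1 ?_
      rw [Finset.card_image_of_injective _ g.injective]
    have h3 := congrArg (fun s : Finset V => (s : Set V)) h2
    simp only [Finset.coe_image] at h3
    exact h3

end Pool.Agent.Lib.Pad47bbD
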