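import Pool.Agent.Lib.Pad47bbD.Push

/-!
The family of the primes of the target of a birational contraction is again a family of primes: the
closure of its cone contains no line, and its movable cone has interior points.
-/

open Set Topology

namespace Pool.Agent.Lib.Pad47bbD

open Pool.Agent.Lib.Pad47bb Pool.Agent.Lib.Pad47bbQ Pool.Agent.Lib.Pad47bbM

variable {V : Type*} [NormedAddCommGroup V] [NormedSpace ℝ V]
  {U : Type*} [NormedAddCommGroup U] [NormedSpace ℝ U] {ι : Type*}
  [FiniteDimensional ℝ V] {L : Submodule ℤ V} {f : ι → V} {Γ : Subgroup (V ≃ₗ[ℝ] V)}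

/-- The span of a contractible set contains no nonzero limit of classes of effective divisors without
components in the set. -/
theorem FamData.span_inf (T : FamData L f Γ) {S : Finset ι} (hS : ContractibleF f S) {x : V}
    (hx : x ∈ closure (PointedCone.hull ℝ (f '' (S : Set ι)ᶜ) : Set V))
    (hxS : x ∈ Submodule.span ℝ (f '' (S : Set ι))) : x = 0 := by
  classical
  obtain ⟨p, hp, hpE, hSp⟩ := hS
  rw [Finsupp.mem_span_image_iff_linearCombination] at hxS
  obtain ⟨φ, hφS, hφ⟩ := hxS
  have hφS' : ∀ i, i ∉ S → φ i = 0 := fun i hi => by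
    by_contra h
    exact hi (hφS (Finsupp.mem_support_iff.2 h))
  by_cases hpos : ∃ i ∈ S, 0 < φ i
  swap
  · -- all coefficients are nonpositive
    push Not at hpos
    have h1 : -x ∈ eff (range f) := by
      rw [← hφ, ← map_neg, ← image_univ]
      refine lc_mem (fun i => ?_) fun i hi => absurd (mem_univ i) hi
      rw [Finsupp.neg_apply]
      by_cases hi : i ∈ S
      · linarith [hpos i hi]
      · rw [hφS' i hi, neg_zero]
    exact T.salient x (closure_mono (Submodule.span_mono (image_subset_range f _)) hx)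
      (subset_closure h1)
  exfalso
  obtain ⟨A, hA, T₀, hT₀, hR⟩ := T.divData.exists_add hpE
  have hR' : p - A ∈ PointedCone.hull ℝ (f '' univ) := by
    rw [image_univ]
    exact Submodule.span_mono hT₀ hR
  obtain ⟨r, hr0, -, hr⟩ := exists_finsupp hR'
  let I : Finset ι := S.filter fun i => 0 < φ i
  have hI : I.Nonempty := by
    obtain ⟨i, hi, h⟩ := hpos
    exact ⟨i, Finset.mem_filter.2 ⟨hi, h⟩⟩
  obtain ⟨i₁, hi₁, hmin⟩ := I.exists_min_image (fun i => r i / φ i) hI
  have hi₁S : i₁ ∈ S := (Finset.mem_filter.1 hi₁).1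
  have hφ₁ : 0 < φ i₁ := (Finset.mem_filter.1 hi₁).2
  set lam : ℝ := r i₁ / φ i₁ with hlam
  have hlam0 : 0 ≤ lam := div_nonneg (hr0 i₁) hφ₁.le
  have hR1 : Finsupp.linearCombination ℝ f (r - lam • φ) ∈ PointedCone.hull ℝ (f '' {i₁}ᶜ) := by
    refine lc_mem (fun i => ?_) fun i hi => ?_
    · rw [Finsupp.sub_apply, Finsupp.smul_apply, smul_eq_mul]
      by_cases hi : i ∈ S
      · rcases le_or_gt (φ i) 0 with h | h
        · nlinarith [hr0 i]
        · have h1 : lam ≤ r i / φ i := hmin i (Finset.mem_filter.2 ⟨hi, h⟩)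
          rw [le_div_iff₀ h] at h1
          linarith
      · rw [hφS' i hi, mul_zero, sub_zero]
        exact hr0 i
    · have h1 : i = i₁ := by simpa using hi
      rw [h1, Finsupp.sub_apply, Finsupp.smul_apply, smul_eq_mul, hlam, div_mul_cancel₀ _ hφ₁.ne',
        sub_self]
  have hp1 : p = A + (lam • x + Finsupp.linearCombination ℝ f (r - lam • φ)) := by
    rw [map_sub, map_smul, hφ, hr]
    abel
  obtain ⟨δ, hδ, hball⟩ := Metric.isOpen_iff.1 isOpen_interior A hA
  set ε : ℝ := δ / (2 * (1 + ‖f i₁‖)) with hε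
  have hε0 : 0 < ε := by positivity
  have hεD : ‖ε • f i₁‖ < δ := by
    rw [norm_smul, Real.norm_of_nonneg hε0.le, hε, div_mul_eq_mul_div, div_lt_iff₀ (by positivity)]
    nlinarith [norm_nonneg (f i₁)]
  have h1 : A + ε • f i₁ ∈ movF f := interior_subset (hball (by
    simpa [Metric.mem_ball, dist_eq_norm] using hεD))
  refine hSp i₁ hi₁S ε hε0 (mem_movF.2 ⟨?_, fun j => ?_⟩)
  · exact add_mem_closure (mem_movF.1 hp).1
      (PointedCone.smul_mem _ hε0.le (Submodule.subset_span ⟨i₁, rfl⟩))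
  · by_cases hj : i₁ = j
    · subst hj
      have h2 : p + ε • f i₁ = (A + ε • f i₁) +
          (lam • x + Finsupp.linearCombination ℝ f (r - lam • φ)) := by
        conv_lhs => rw [hp1]
        abel
      rw [h2]
      have h3 : lam • x ∈ closure (PointedCone.hull ℝ (f '' {i₁}ᶜ) : Set V) := by
        have h5 : (S : Set ι)ᶜ ⊆ {i₁}ᶜ := by
          intro k hk h
          rw [mem_singleton_iff.1 h] at hk
          exact hk hi₁S
        have h4 : x ∈ PointedCone.closure (PointedCone.hull ℝ (f '' {i₁}ᶜ)) :=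
          closure_mono (Submodule.span_mono (image_mono h5)) hx
        exact PointedCone.smul_mem _ hlam0 h4
      refine (PointedCone.closure (PointedCone.hull ℝ (f '' {i₁}ᶜ))).add_mem
        ((mem_movF.1 h1).2 i₁) ?_
      exact add_mem_closure h3 hR1
    · refine add_mem_closure ((mem_movF.1 hp).2 j) (PointedCone.smul_mem _ hε0.le ?_)
      exact Submodule.subset_span ⟨i₁, fun h => hj (mem_singleton_iff.1 h), rfl⟩

variable [FiniteDimensional ℝ U] {L' : Submodule ℤ U} {Γ' : Subgroup (U ≃ₗ[ℝ] U)}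

/-- **The primes of the target of a birational contraction.** -/
theorem FamData.push (T : FamData L f Γ) {S : Finset ι} (hS : ContractibleF f S)
    {π : V →ₗ[ℝ] U} (hsurj : Function.Surjective π)
    (hker : ∀ x, π x = 0 ↔ x ∈ Submodule.span ℝ (f '' (S : Set ι)))
    (hlat : ∀ x ∈ L, π x ∈ L') (hΓL : ∀ h ∈ Γ', ∀ u ∈ L', h u ∈ L')
    (hΓf : ∀ h ∈ Γ', ∃ σ : Equiv.Perm {i // i ∉ S}, ∀ i, h (push f S π i) = push f S π (σ i)) :
    FamData L' (Pad47bbD.push f S π) Γ' where
  lattice := fun i => hlat _ (T.lattice i)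
  salient := by
    have h0 : ∀ z ∈ PointedCone.closure (PointedCone.hull ℝ (f '' (S : Set ι)ᶜ)), π z = 0 →
        z = 0 := fun z hz hπz => T.span_inf hS hz ((hker z).1 hπz)
    have hcl := isClosed_image (M := PointedCone.closure (PointedCone.hull ℝ (f '' (S : Set ι)ᶜ)))
      isClosed_closure π h0
    have hsub : closure (eff (range (Pad47bbD.push f S π)) : Set U) ⊆
        π '' (PointedCone.closure (PointedCone.hull ℝ (f '' (S : Set ι)ᶜ)) : Set V) := by
      refine closure_minimal ?_ hcl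
      have h1 : range (Pad47bbD.push f S π) = π '' (f '' (S : Set ι)ᶜ) := by
        ext v
        constructor
        · rintro ⟨⟨k, hk⟩, rfl⟩
          exact ⟨f k, ⟨k, hk, rfl⟩, rfl⟩
        · rintro ⟨_, ⟨k, hk, rfl⟩, rfl⟩
          exact ⟨⟨k, hk⟩, rfl⟩
      have h2 : eff (π '' (f '' (S : Set ι)ᶜ)) =
          PointedCone.map π (PointedCone.hull ℝ (f '' (S : Set ι)ᶜ)) := by
        symm
        exact Submodule.map_span _ _
      rw [h1, h2]
      rintro _ ⟨z, hz, rfl⟩
      exact ⟨z, subset_closure hz, rfl⟩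
    intro u hu hu'
    obtain ⟨z, hz, rfl⟩ := hsub hu
    obtain ⟨z', hz', hzz⟩ := hsub hu'
    have h1 : z + z' = 0 := by
      refine h0 _ (Submodule.add_mem _ hz hz') ?_
      rw [map_add, hzz, add_neg_cancel]
    have h2 : -z = z' := neg_eq_of_add_eq_zero_right h1
    have h3 : ∀ z ∈ PointedCone.closure (PointedCone.hull ℝ (f '' (S : Set ι)ᶜ)),
        z ∈ closure (eff (range f) : Set V) := fun z hz =>
      closure_mono (Submodule.span_mono (image_subset_range f _)) hz
    rw [T.salient z (h3 z hz) (by rw [h2]; exact h3 z' hz'), map_zero]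
  interior_nonempty := by
    have hS0 : ∀ i ∈ S, π (f i) = 0 := fun i hi =>
      (hker _).2 (Submodule.subset_span ⟨i, hi, rfl⟩)
    obtain ⟨e, he⟩ := T.interior_nonempty
    refine ⟨π e, ?_⟩
    rw [mem_interior]
    refine ⟨π '' interior (movF f : Set V), ?_,
      (LinearMap.isOpenMap_of_finiteDimensional π hsurj) _ isOpen_interior, ⟨e, he, rfl⟩⟩
    rintro _ ⟨x, hx, rfl⟩
    exact map_movF_mem hS0 (interior_subset hx)
  map_lattice := hΓL
  perm := hΓf

/-- **Birational descent of the movable cone conjecture**, without assumptions on the target. -/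
theorem FamData.birational [DiscreteTopology L'] [IsZLattice ℝ L'] (T : FamData L f Γ)
    {S : Finset ι} (hS : ContractibleF f S) {π : V →ₗ[ℝ] U} (hsurj : Function.Surjective π)
    (hker : ∀ x, π x = 0 ↔ x ∈ Submodule.span ℝ (f '' (S : Set ι)))
    (hlat : ∀ x ∈ L, π x ∈ L') (hΓL : ∀ h ∈ Γ', ∀ u ∈ L', h u ∈ L')
    (hΓf : ∀ h ∈ Γ', ∃ σ : Equiv.Perm {i // i ∉ S},
      ∀ i, h (Pad47bbD.push f S π i) = Pad47bbD.push f S π (σ i))
    (hind : ∀ g ∈ Γ, g '' (f '' (S : Set ι)) = f '' (S : Set ι) →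
      ∃ h ∈ Γ', ∀ x, h (π x) = π (g x))
    (h : HasRPFD L Γ (movF f ⊓ eff (range f))) :
    HasRPFD L' Γ' (movF (Pad47bbD.push f S π) ⊓ eff (range (Pad47bbD.push f S π))) :=
  T.descent hS hsurj hker hlat (T.push hS hsurj hker hlat hΓL hΓf) hind h

end Pool.Agent.Lib.Pad47bbD
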